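import Pool.Agent.MP_fc4263_co.Lower

namespace Pool.Agent.MPfc4263

open SimpleGraph Finset

noncomputable section

lemma inS_swap {k : ℕ} {v : Vtx} : inS k v.swap ↔ inS k v := by
  unfold inS
  exact and_comm

lemma port_swap {k : ℕ} {v : Vtx} : port k v.swap ↔ port k v := by
  unfold port
  rw [inS_swap]
  have : (face k v.swap.1 v.swap.2 ∨ face k v.swap.2 v.swap.1) ↔
      (face k v.1 v.2 ∨ face k v.2 v.1) := by
    exact or_comm
  rw [this]

/-- the symmetry exchanging both tapes -/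
def swapHom : GG →g GG where
  toFun := Prod.swap
  map_rel' := by
    intro v v' h
    refine ⟨?_, fun k => ?_⟩
    · rcases h.1 with ⟨h1, h2⟩ | ⟨h1, h2⟩
      · exact Or.inr ⟨h2, h1⟩
      · exact Or.inl ⟨h2, h1⟩
    · rw [inS_swap, inS_swap, port_swap, port_swap]
      exact h.2 k

/-- tapes inside `[-m, m]` as a graph -/
def XA (m : ℕ) : SimpleGraph Tape where
  Adj a a' := tAdj a a' ∧ inA m a ∧ inA m a'
  symm := ⟨fun _ _ h => ⟨h.1.symm, h.2.2, h.2.1⟩⟩
  loopless := ⟨fun _ h => h.1.irrefl⟩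

lemma XA_move {m : ℕ} {w : Finset ℤ} (hw : ∀ y ∈ w, -(m : ℤ) ≤ y ∧ y < m) (n : ℕ)
    (hn : (n : ℤ) ≤ 2 * m) : (XA m).Reachable (w, -(m : ℤ)) (w, -(m : ℤ) + n) := by
  induction n with
  | zero => simp
  | succ n ih =>
    refine (ih (by omega)).trans (Adj.reachable ?_)
    refine ⟨Or.inl ⟨by push_cast; ring, fun y _ => Iff.rfl⟩, ⟨?_, hw⟩, ⟨?_, hw⟩⟩
    · rw [abs_le]; constructor <;> simp <;> omega
    · rw [abs_le]; constructor <;> simp <;> omega

lemma XA_move' {m : ℕ} {w : Finset ℤ} (hw : ∀ y ∈ w, -(m : ℤ) ≤ y ∧ y < m) {x x' : ℤ}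
    (hx : |x| ≤ m) (hx' : |x'| ≤ m) : (XA m).Reachable (w, x) (w, x') := by
  rw [abs_le] at hx hx'
  obtain ⟨n, hn⟩ := Int.eq_ofNat_of_zero_le (show 0 ≤ x + m by omega)
  obtain ⟨n', hn'⟩ := Int.eq_ofNat_of_zero_le (show 0 ≤ x' + m by omega)
  have h1 := XA_move hw n (by omega)
  have h2 := XA_move hw n' (by omega)
  have e1 : -(m : ℤ) + n = x := by omega
  have e2 : -(m : ℤ) + n' = x' := by omega
  rw [e1] at h1
  rw [e2] at h2
  exact h1.symm.trans h2

lemma XA_empty {m : ℕ} {x : ℤ} (hx : |x| ≤ m) (w : Finset ℤ)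
    (hw : ∀ y ∈ w, -(m : ℤ) ≤ y ∧ y < m) : (XA m).Reachable (w, x) (∅, x) := by
  induction w using Finset.induction_on with
  | empty => exact Reachable.refl _
  | insert z w hz ih =>
    have hw' : ∀ y ∈ w, -(m : ℤ) ≤ y ∧ y < m := fun y hy => hw y (Finset.mem_insert_of_mem hy)
    refine Reachable.trans ?_ (ih hw')
    have hzb := hw z (Finset.mem_insert_self _ _)
    have h1 : (XA m).Reachable (insert z w, x) (insert z w, z) :=
      XA_move' hw hx (by rw [abs_le]; constructor <;> omega)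
    have h2 : (XA m).Reachable (w, z + 1) (w, x) :=
      XA_move' hw' (by rw [abs_le]; constructor <;> omega) hx
    refine h1.trans (Reachable.trans (Adj.reachable ?_) h2)
    refine ⟨Or.inl ⟨rfl, fun y hy => ?_⟩, ⟨?_, hw⟩, ⟨?_, hw'⟩⟩
    · simp only [Finset.mem_insert]
      constructor
      · rintro (h | h)
        · exact absurd h hy
        · exact h
      · intro h; exact Or.inr h
    · rw [abs_le]; constructor <;> simp <;> omega
    · rw [abs_le]; constructor <;> simp <;> omega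

lemma XA_reachable {m : ℕ} {a a' : Tape} (ha : inA m a) (ha' : inA m a') :
    (XA m).Reachable a a' := by
  have h1 := XA_empty ha.1 a.1 ha.2
  have h2 := XA_empty ha'.1 a'.1 ha'.2
  have h3 : (XA m).Reachable (∅, a.2) (∅, a'.2) := XA_move' (by simp) ha.1 ha'.1
  exact (h1.trans h3).trans h2.symm

lemma GG_of_XA {k : ℕ} {a b b' : Tape} (h : ∀ l, inA (rad l) a → k ≤ l)
    (hb : (XA (rad k)).Adj b b') : GG.Adj (a, b) (a, b') := by
  refine ⟨Or.inr ⟨rfl, hb.1⟩, fun l => ⟨?_, ?_⟩⟩
  · rintro ⟨h1, _⟩ h2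
    exfalso
    exact h2 ⟨h1, inA_mono hb.2.2 (rad_strictMono.monotone (h l h1))⟩
  · rintro ⟨h1, _⟩ h2
    exfalso
    exact h2 ⟨h1, inA_mono hb.2.1 (rad_strictMono.monotone (h l h1))⟩

lemma GG_reach_of_XA {k : ℕ} {a b b' : Tape} (h : ∀ l, inA (rad l) a → k ≤ l)
    (hb : inA (rad k) b) (hb' : inA (rad k) b') : GG.Reachable (a, b) (a, b') := by
  let f : XA (rad k) →g GG :=
    { toFun := fun b => (a, b)
      map_rel' := fun hbb => GG_of_XA h hbb }
  exact (XA_reachable hb hb').map f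

lemma exists_face {k : ℕ} {a : Tape} (ha : |a.2| = rad k) :
    ∃ b, inA (rad k) b ∧ face k a b := by
  obtain ⟨U, _, hU⟩ := exists_hash (sep k) (by unfold sep; omega) true a (∅, 0) ∅ 0
  have h1 : 8 * sep k = per k := rfl
  rw [h1, zero_add] at hU
  have h2 := tim_lt_succ k
  have h3 : tim (k + 1) * 8 = rad k := by unfold rad; ring
  have h4 := sep_le_per k
  refine ⟨run true (∅, 0) U (per k), ⟨?_, ?_⟩, ha, ?_, hU⟩
  · rw [run_pos]
    simp only [pos, if_true]
    rw [abs_of_nonneg] <;> omega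
  · intro y hy
    rw [mem_run] at hy
    rcases hy with ⟨h5, _⟩ | ⟨i, h5, _, h6⟩
    · simp at h5
    · simp only [lam, if_true] at h6
      omega
  · rw [run_pos]
    simp only [pos, if_true]
    rw [abs_of_nonneg] <;> omega

/-- the two ends of a possibly removed edge are still connected -/
lemma reach_removed {k : ℕ} {a a' b : Tape} (hadj : tAdj a a') (ha : inA (rad k) a)
    (ha' : ¬ inA (rad k) a') (hb : inA (rad k) b) : GG.Reachable (a, b) (a', b) := by
  -- position of `a` and of `a'`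
  have hapos := abs_le.1 ha.1
  have key : |a.2| = rad k ∧ ∀ l, k < l → inA (rad l) a' := by
    rcases hadj with ⟨h1, h2⟩ | ⟨h1, h2⟩
    · have h3 : a.2 = rad k := by
        by_contra hne
        apply ha'
        refine ⟨by rw [abs_le]; constructor <;> omega, fun y hy => ?_⟩
        by_cases hya : y = a.2
        · omega
        · exact ha.2 y ((h2 y hya).2 hy)
      refine ⟨by rw [h3]; simp, fun l hl => ?_⟩
      have h4 := rad_strictMono hl
      refine ⟨by rw [abs_le]; constructor <;> omega, fun y hy => ?_⟩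
      by_cases hya : y = a.2
      · omega
      · have := ha.2 y ((h2 y hya).2 hy)
        omega
    · have h3 : a.2 = -rad k := by
        by_contra hne
        apply ha'
        refine ⟨by rw [abs_le]; constructor <;> omega, fun y hy => ?_⟩
        by_cases hya : y = a'.2
        · omega
        · exact ha.2 y ((h2 y hya).2 hy)
      refine ⟨by rw [h3]; simp, fun l hl => ?_⟩
      have h4 := rad_strictMono hl
      refine ⟨by rw [abs_le]; constructor <;> omega, fun y hy => ?_⟩
      by_cases hya : y = a'.2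
      · omega
      · have := ha.2 y ((h2 y hya).2 hy)
        omega
  obtain ⟨hak, ha'l⟩ := key
  have hl1 : ∀ l, inA (rad l) a → k ≤ l := by
    intro l hl
    by_contra hcon
    have h4 := rad_strictMono (show l < k by omega)
    have h5 := hl.1
    rw [hak] at h5
    omega
  have hl2 : ∀ l, inA (rad l) a' → k ≤ l := by
    intro l hl
    by_contra hcon
    exact ha' (inA_mono hl (rad_strictMono.monotone (by omega)))
  obtain ⟨b1, hb1, hface⟩ := exists_face hak
  have h1 := GG_reach_of_XA hl1 hb hb1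
  have h2 := GG_reach_of_XA hl2 hb1 hb
  refine h1.trans (Reachable.trans (Adj.reachable ?_) h2)
  refine ⟨Or.inl ⟨hadj, rfl⟩, fun l => ⟨?_, ?_⟩⟩
  · rintro ⟨h3, h4⟩ h5
    have h6 := hl1 l h3
    rcases Nat.lt_or_ge k l with h7 | h7
    · exact absurd ⟨ha'l l h7, h4⟩ h5
    · have : l = k := by omega
      subst this
      exact ⟨⟨ha, hb1⟩, Or.inl hface⟩
  · rintro ⟨h3, h4⟩ h5
    exfalso
    have h6 := hl2 l h3
    exact h5 ⟨inA_mono ha (rad_strictMono.monotone h6), h4⟩

lemma reach_aux {a a' b : Tape} (hadj : tAdj a a') : GG.Reachable (a, b) (a', b) := by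
  by_cases h : GG.Adj (a, b) (a', b)
  · exact h.reachable
  · have h2 : ∃ k, (inS k (a, b) ∧ ¬ inS k (a', b)) ∨ (inS k (a', b) ∧ ¬ inS k (a, b)) := by
      by_contra hcon
      push Not at hcon
      apply h
      refine ⟨Or.inl ⟨hadj, rfl⟩, fun k => ⟨fun h3 h4 => ?_, fun h3 h4 => ?_⟩⟩
      · exact absurd ((hcon k).1 h3) h4
      · exact absurd ((hcon k).2 h3) h4
    obtain ⟨k, ⟨h3, h4⟩ | ⟨h3, h4⟩⟩ := h2
    · exact reach_removed hadj h3.1 (fun h5 => h4 ⟨h5, h3.2⟩) h3.2
    · exact (reach_removed hadj.symm h3.1 (fun h5 => h4 ⟨h5, h3.2⟩) h3.2).symm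

lemma reach_G0 {v v' : Vtx} (h : G0.Adj v v') : GG.Reachable v v' := by
  obtain ⟨a, b⟩ := v
  obtain ⟨a', b'⟩ := v'
  rcases h with ⟨h1, h2⟩ | ⟨h1, h2⟩
  · simp only at h1 h2
    subst h2
    exact reach_aux h1
  · simp only at h1 h2
    subst h1
    have := (reach_aux (b := a) h2).map swapHom
    exact this

lemma GG_reachable (v v' : Vtx) : GG.Reachable v v' := by
  -- reachable in `G0`
  obtain ⟨k1, hk1⟩ := exists_inS v
  obtain ⟨k2, hk2⟩ := exists_inS v'
  have h1 := hk1 (k1 + k2) (by omega)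
  have h2 := hk2 (k1 + k2) (by omega)
  have hmap : ∀ (p q : Tape), ∀ w : (XA (rad (k1 + k2))).Walk p q, ∀ b, GG.Reachable (p, b) (q, b) := by
    intro p q w
    induction w with
    | nil => intro b; exact Reachable.refl _
    | cons h p ih => intro b; exact (reach_aux h.1).trans (ih b)
  have hmap2 : ∀ (p q : Tape), ∀ w : (XA (rad (k1 + k2))).Walk p q, ∀ b, GG.Reachable (b, p) (b, q) := by
    intro p q w b
    exact (hmap p q w b).map swapHom
  obtain ⟨w1⟩ := XA_reachable h1.1 h2.1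
  obtain ⟨w2⟩ := XA_reachable h1.2 h2.2
  exact (hmap _ _ w1 v.2).trans (hmap2 _ _ w2 v'.1)

instance : Infinite Vtx := inferInstance

lemma GG_connected : GG.Connected := by
  have : Nonempty Vtx := ⟨((∅, 0), (∅, 0))⟩
  exact ⟨GG_reachable⟩

end

end Pool.Agent.MPfc4263
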