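import Pool.Agent.MP_fc4263_co.Graph

namespace Pool.Agent.MPfc4263

open SimpleGraph Finset

noncomputable section

/-- tapes with prescribed position `x` and lamps of `w` outside `[u, z)` -/
def cyl (w : Finset ℤ) (u z x : ℤ) : Finset Tape :=
  ((Finset.Ico u z).powerset).image (fun U => ((w \ Finset.Ico u z) ∪ U, x))

lemma card_cyl (w : Finset ℤ) (u z x : ℤ) (n : ℕ) (h : z - u = n) :
    (cyl w u z x).card ≤ 2 ^ n := by
  refine le_trans Finset.card_image_le ?_
  rw [Finset.card_powerset, Int.card_Ico, h, Int.toNat_natCast]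

lemma mem_cyl {w : Finset ℤ} {u z x : ℤ} {a : Tape} (hx : a.2 = x)
    (h : ∀ y, (y < u ∨ z ≤ y) → (y ∈ a.1 ↔ y ∈ w)) : a ∈ cyl w u z x := by
  unfold cyl
  rw [Finset.mem_image]
  refine ⟨a.1.filter (fun y => y ∈ Finset.Ico u z), ?_, ?_⟩
  · rw [Finset.mem_powerset]
    intro y hy
    exact (Finset.mem_filter.1 hy).2
  · apply Prod.ext
    · ext y
      simp only [Finset.mem_union, Finset.mem_sdiff, Finset.mem_filter, Finset.mem_Ico]
      by_cases hy : u ≤ y ∧ y < z
      · simp [hy]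
      · have := h y (by omega)
        tauto
    · exact hx.symm

/-- a finite set containing everything within `n` steps of `a0` -/
def QB (a0 : Tape) (n : ℕ) : Finset Tape :=
  (range (n + 1)).biUnion fun k => (range (n + 1)).biUnion fun e =>
    (range (n + 1 - (2 * k + 2 * e))).biUnion fun d =>
      cyl a0.1 (a0.2 - k) (a0.2 + (d + e)) (a0.2 + d) ∪
      cyl a0.1 (a0.2 - (d + k)) (a0.2 + e) (a0.2 - d)

lemma QQ.mem_QB {a0 a : Tape} {n : ℕ} (h : QQ a0 a n) : a ∈ QB a0 n := by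
  obtain ⟨k, l, h1, h2, h3, h4⟩ := h
  unfold QB
  simp only [Finset.mem_biUnion, Finset.mem_range, Finset.mem_union]
  rcases le_or_gt a0.2 a.2 with hx | hx
  · rw [abs_of_nonneg (by omega)] at h4
    obtain ⟨d, hd⟩ := Int.eq_ofNat_of_zero_le (show 0 ≤ a.2 - a0.2 by omega)
    obtain ⟨e, he⟩ := Int.eq_ofNat_of_zero_le (show 0 ≤ (l : ℤ) - d by omega)
    refine ⟨k, by omega, e, by omega, d, by omega, Or.inl ?_⟩
    apply mem_cyl (by omega)
    intro y hy
    exact h1 y (by omega)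
  · rw [abs_of_nonpos (by omega)] at h4
    obtain ⟨d, hd⟩ := Int.eq_ofNat_of_zero_le (show 0 ≤ a0.2 - a.2 by omega)
    obtain ⟨k', hk'⟩ := Int.eq_ofNat_of_zero_le (show 0 ≤ (k : ℤ) - d by omega)
    refine ⟨k', by omega, l, by omega, d, by omega, Or.inr ?_⟩
    apply mem_cyl (by omega)
    intro y hy
    exact h1 y (by omega)

lemma sum_half_pow (n : ℕ) : ∑ k ∈ range n, (1 / 2 : ℝ) ^ k ≤ 2 := by
  have h := geom_sum_eq (show (1 / 2 : ℝ) ≠ 1 by norm_num) n
  rw [h]
  have : (0 : ℝ) < (1 / 2) ^ n := by positivity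
  rw [div_le_iff_of_neg (by norm_num)]
  linarith

lemma card_QB (a0 : Tape) (n : ℕ) : ((QB a0 n).card : ℝ) ≤ 16 * 2 ^ n := by
  have h1 : ((QB a0 n).card : ℝ) ≤ ∑ k ∈ range (n + 1), ∑ e ∈ range (n + 1),
      ∑ d ∈ range (n + 1 - (2 * k + 2 * e)), 2 * (2 : ℝ) ^ (k + e + d) := by
    have : (QB a0 n).card ≤ ∑ k ∈ range (n + 1), ∑ e ∈ range (n + 1),
        ∑ d ∈ range (n + 1 - (2 * k + 2 * e)), 2 * 2 ^ (k + e + d) := by
      unfold QB
      refine le_trans Finset.card_biUnion_le (Finset.sum_le_sum fun k _ => ?_)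
      refine le_trans Finset.card_biUnion_le (Finset.sum_le_sum fun e _ => ?_)
      refine le_trans Finset.card_biUnion_le (Finset.sum_le_sum fun d _ => ?_)
      refine le_trans (Finset.card_union_le _ _) ?_
      rw [two_mul]
      apply Nat.add_le_add
      · apply card_cyl; push_cast; ring
      · apply card_cyl; push_cast; ring
    exact_mod_cast this
  refine h1.trans ?_
  have h2 : ∀ k ∈ range (n + 1), ∀ e ∈ range (n + 1),
      ∑ d ∈ range (n + 1 - (2 * k + 2 * e)), 2 * (2 : ℝ) ^ (k + e + d) ≤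
        2 * 2 ^ (n + 1) * (1 / 2) ^ e * (1 / 2) ^ k := by
    intro k _ e _
    by_cases hke : 2 * k + 2 * e ≤ n
    · have e1 : ∑ d ∈ range (n + 1 - (2 * k + 2 * e)), 2 * (2 : ℝ) ^ (k + e + d) =
          2 * 2 ^ (k + e) * ∑ d ∈ range (n + 1 - (2 * k + 2 * e)), (2 : ℝ) ^ d := by
        rw [Finset.mul_sum]
        apply Finset.sum_congr rfl
        intro d _
        rw [pow_add]; ring
      rw [e1, geom_sum_eq (by norm_num)]
      have e2 : (2 : ℝ) ^ (n + 1) = 2 ^ (n + 1 - (2 * k + 2 * e)) * (2 ^ k * 2 ^ k * (2 ^ e * 2 ^ e)) := by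
        rw [← pow_add, ← pow_add, ← pow_add, ← pow_add]
        congr 1
        omega
      have e3 : 2 * 2 ^ (n + 1) * (1 / 2 : ℝ) ^ e * (1 / 2) ^ k =
          2 * 2 ^ (k + e) * 2 ^ (n + 1 - (2 * k + 2 * e)) := by
        rw [e2, pow_add, one_div, inv_pow, inv_pow]
        field_simp
      rw [e3]
      have : (0 : ℝ) < 2 * 2 ^ (k + e) := by positivity
      apply mul_le_mul_of_nonneg_left _ this.le
      have : (2 : ℝ) - 1 = 1 := by norm_num
      rw [this, div_one]
      linarith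
    · have : n + 1 - (2 * k + 2 * e) = 0 := by omega
      rw [this]
      simp only [range_zero, sum_empty]
      positivity
  calc ∑ k ∈ range (n + 1), ∑ e ∈ range (n + 1),
      ∑ d ∈ range (n + 1 - (2 * k + 2 * e)), 2 * (2 : ℝ) ^ (k + e + d)
      ≤ ∑ k ∈ range (n + 1), ∑ e ∈ range (n + 1), 2 * 2 ^ (n + 1) * (1 / 2) ^ e * (1 / 2) ^ k :=
        Finset.sum_le_sum fun k hk => Finset.sum_le_sum fun e he => h2 k hk e he
    _ = 2 * 2 ^ (n + 1) * (∑ e ∈ range (n + 1), (1 / 2 : ℝ) ^ e) *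
        (∑ k ∈ range (n + 1), (1 / 2 : ℝ) ^ k) := by
        rw [Finset.mul_sum]
        apply Finset.sum_congr rfl
        intro k _
        rw [← Finset.sum_mul, ← Finset.mul_sum]
    _ ≤ 2 * 2 ^ (n + 1) * 2 * 2 := by
        have h3 := sum_half_pow (n + 1)
        have h4 : (0 : ℝ) ≤ ∑ k ∈ range (n + 1), (1 / 2 : ℝ) ^ k :=
          Finset.sum_nonneg fun _ _ => by positivity
        gcongr
    _ = 16 * 2 ^ n := by rw [pow_succ]; ring

/-- a finite set containing the ball of radius `r` -/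
def BB (v0 : Vtx) (r : ℕ) : Finset Vtx :=
  (range (r + 1)).biUnion fun i => (QB v0.1 i) ×ˢ (QB v0.2 (r - i))

lemma mem_BB {v0 v : Vtx} {r : ℕ} (p : G0.Walk v v0) (hp : p.length ≤ r) : v ∈ BB v0 r := by
  obtain ⟨n1, n2, hn, h1, h2⟩ := QQ_of_walk p
  unfold BB
  simp only [Finset.mem_biUnion, Finset.mem_range, Finset.mem_product]
  exact ⟨n1, by omega, h1.mem_QB, (h2.mono (by omega)).mem_QB⟩

lemma card_BB (v0 : Vtx) (r : ℕ) : ((BB v0 r).card : ℝ) ≤ 256 * (r + 1) * 2 ^ r := by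
  have h : ((BB v0 r).card : ℝ) ≤ ∑ i ∈ range (r + 1), ((QB v0.1 i).card : ℝ) * (QB v0.2 (r - i)).card := by
    have : (BB v0 r).card ≤ ∑ i ∈ range (r + 1), (QB v0.1 i).card * (QB v0.2 (r - i)).card := by
      unfold BB
      refine le_trans Finset.card_biUnion_le (Finset.sum_le_sum fun i _ => ?_)
      rw [Finset.card_product]
    exact_mod_cast this
  refine h.trans ?_
  calc ∑ i ∈ range (r + 1), ((QB v0.1 i).card : ℝ) * (QB v0.2 (r - i)).card
      ≤ ∑ i ∈ range (r + 1), 256 * (2 : ℝ) ^ r := by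
        apply Finset.sum_le_sum
        intro i hi
        rw [Finset.mem_range] at hi
        have h1 := card_QB v0.1 i
        have h2 := card_QB v0.2 (r - i)
        have e : (2 : ℝ) ^ r = 2 ^ i * 2 ^ (r - i) := by
          rw [← pow_add]; congr 1; omega
        rw [e]
        calc ((QB v0.1 i).card : ℝ) * (QB v0.2 (r - i)).card ≤ (16 * 2 ^ i) * (16 * 2 ^ (r - i)) := by
              gcongr
          _ = 256 * (2 ^ i * 2 ^ (r - i)) := by ring
    _ = 256 * (r + 1) * 2 ^ r := by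
        rw [Finset.sum_const, Finset.card_range, nsmul_eq_mul]
        push_cast
        ring

end

end Pool.Agent.MPfc4263
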