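import Pool.Agent.MP_fc4263_co.Conn
import Pool.Agent.MP_fc4263_co.Upper

namespace Pool.Agent.MPfc4263

open SimpleGraph Finset

noncomputable section

lemma fail_prob (k : ℕ) : (1 - 1 / 2 ^ (8 * sep k) : ℝ) ^ rep k ≤ (1 / 2) ^ (k + 4) := by
  have h1 : (8 * sep k) = per k := rfl
  rw [h1]
  unfold rep
  rw [mul_comm (k + 4), pow_mul]
  have h2 := Real.one_sub_div_pow_le_exp_neg (n := 2 ^ per k) (t := 1) (by
    push_cast
    exact one_le_pow₀ (by norm_num))
  push_cast at h2
  have h3 : Real.exp (-1) ≤ 1 / 2 := by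
    rw [Real.exp_neg, one_div]
    apply inv_anti₀ (by norm_num)
    have := Real.add_one_le_exp (1 : ℝ)
    linarith
  apply pow_le_pow_left₀ _ (h2.trans h3)
  apply pow_nonneg
  have h4 : (0 : ℝ) < 2 ^ per k := by positivity
  have : (1 : ℝ) ≤ 2 ^ per k := one_le_pow₀ (by norm_num)
  have : (1 : ℝ) / 2 ^ per k ≤ 1 := by rw [div_le_one h4]; exact this
  linarith

/-- subsets of `range n` containing `0` -/
def Z (n : ℕ) : Finset (Finset ℕ) := (range n).powerset.filter (fun U => 0 ∈ U)

lemma card_Z (n : ℕ) (hn : 1 ≤ n) : ((Z n).card : ℝ) = 2 ^ n / 2 := by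
  have h : (Z n).card = 2 ^ (n - 1) := by
    have h1 : Z n = ((Finset.Ico 1 n).powerset).image (fun U => insert 0 U) := by
      ext U
      unfold Z
      simp only [Finset.mem_filter, Finset.mem_powerset, Finset.mem_image]
      constructor
      · rintro ⟨h1, h2⟩
        refine ⟨U.erase 0, ?_, Finset.insert_erase h2⟩
        intro i hi
        rw [Finset.mem_erase] at hi
        have := h1 hi.2
        rw [Finset.mem_range] at this
        rw [Finset.mem_Ico]
        omega
      · rintro ⟨W, h1, rfl⟩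
        refine ⟨?_, Finset.mem_insert_self _ _⟩
        intro i hi
        rw [Finset.mem_insert] at hi
        rw [Finset.mem_range]
        rcases hi with hi | hi
        · omega
        · have := h1 hi
          rw [Finset.mem_Ico] at this
          omega
    rw [h1, Finset.card_image_of_injOn, Finset.card_powerset, Nat.card_Ico]
    intro U hU W hW hUW
    have hU0 : 0 ∉ U := by
      intro h
      have := (Finset.mem_powerset.1 hU) h
      rw [Finset.mem_Ico] at this
      omega
    have hW0 : 0 ∉ W := by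
      intro h
      have := (Finset.mem_powerset.1 hW) h
      rw [Finset.mem_Ico] at this
      omega
    have h2 : (insert 0 U).erase 0 = (insert 0 W).erase 0 := by
      simp only at hUW
      rw [hUW]
    rwa [Finset.erase_insert hU0, Finset.erase_insert hW0] at h2
  rw [h]
  push_cast
  obtain ⟨m, rfl⟩ : ∃ m, n = m + 1 := ⟨n - 1, by omega⟩
  rw [Nat.add_sub_cancel, pow_succ]
  ring

/-- the event that all ports that are needed are met -/
def hit (v : Vtx) (i : ℕ) (U W : Finset ℕ) : Prop :=
  ∀ k, II v k < i → ∃ n < rep k, hash (sep k) (run (dir v.1) v.1 U (II v k))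
    (run (dir v.2) v.2 W (tim k + (n + 1) * per k))

open Classical in
lemma card_hit (v : Vtx) (i j : ℕ) (U : Finset ℕ) (hj : 1 ≤ j)
    (hrel : ∀ k, II v k < i → tim (k + 1) ≤ j) :
    (3 / 8 : ℝ) * 2 ^ j ≤ (((Z j).filter (fun W => hit v i U W)).card : ℝ) := by
  let F : ℕ → Finset (Finset ℕ) := fun k => (range j).powerset.filter (fun W =>
    ∀ n < rep k, ¬ hash (sep k) (run (dir v.1) v.1 U (II v k))
      (run (dir v.2) v.2 W (tim k + (n + 1) * (8 * sep k))))
  have hsub : Z j ⊆ ((Z j).filter (fun W => hit v i U W)) ∪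
      ((range i).filter (fun k => II v k < i)).biUnion F := by
    intro W hW
    rw [Finset.mem_union, Finset.mem_filter]
    by_cases h : hit v i U W
    · exact Or.inl ⟨hW, h⟩
    · right
      unfold hit at h
      push Not at h
      obtain ⟨k, hk1, hk2⟩ := h
      rw [Finset.mem_biUnion]
      refine ⟨k, ?_, ?_⟩
      · rw [Finset.mem_filter, Finset.mem_range]
        refine ⟨?_, hk1⟩
        have := lt_rad k
        unfold II at hk1
        omega
      · simp only [F, Finset.mem_filter]
        exact ⟨(Finset.mem_filter.1 hW).1, hk2⟩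
  have h1 := (Finset.card_le_card hsub).trans (Finset.card_union_le _ _)
  have h2 : ((((range i).filter (fun k => II v k < i)).biUnion F).card : ℝ) ≤
      (1 / 8) * 2 ^ j := by
    have h3 : ((((range i).filter (fun k => II v k < i)).biUnion F).card : ℝ) ≤
        ∑ k ∈ (range i).filter (fun k => II v k < i), ((F k).card : ℝ) := by
      exact_mod_cast Finset.card_biUnion_le
    refine h3.trans ?_
    calc ∑ k ∈ (range i).filter (fun k => II v k < i), ((F k).card : ℝ)
        ≤ ∑ k ∈ (range i).filter (fun k => II v k < i), (1 / 2 : ℝ) ^ (k + 4) * 2 ^ j := by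
          apply Finset.sum_le_sum
          intro k hk
          rw [Finset.mem_filter] at hk
          refine (fail_card (sep k) (by unfold sep; omega) (dir v.2) (run (dir v.1) v.1 U (II v k))
            v.2 (tim k) j _ (rep k) ?_ (fun U => Iff.rfl)).trans ?_
          · exact hrel k hk.2
          · exact mul_le_mul_of_nonneg_right (fail_prob k) (by positivity)
      _ ≤ ∑ k ∈ range i, (1 / 2 : ℝ) ^ (k + 4) * 2 ^ j := by
          apply Finset.sum_le_sum_of_subset_of_nonneg (Finset.filter_subset _ _)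
          intro k _ _
          positivity
      _ = (1 / 16) * (∑ k ∈ range i, (1 / 2 : ℝ) ^ k) * 2 ^ j := by
          rw [← Finset.sum_mul, Finset.mul_sum]
          congr 1
          apply Finset.sum_congr rfl
          intro k _
          rw [pow_add]
          norm_num
          ring
      _ ≤ (1 / 16) * 2 * 2 ^ j := by
          have := sum_half_pow i
          gcongr
      _ = (1 / 8) * 2 ^ j := by ring
  have h3 : ((Z j).card : ℝ) ≤ (((Z j).filter (fun W => hit v i U W)).card : ℝ) +
      ((((range i).filter (fun k => II v k < i)).biUnion F).card : ℝ) := by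
    exact_mod_cast h1
  rw [card_Z j hj] at h3
  linarith

open Classical in
/-- the endpoints reached for a given split `i + j` of the length -/
def tg (v : Vtx) (i j : ℕ) : Finset Vtx :=
  ((Z i ×ˢ Z j).filter (fun z => hit v i z.1 z.2)).image (fun z => gp v z.1 z.2 i j)

open Classical in
lemma card_tg (v : Vtx) (i j : ℕ) (hi : 1 ≤ i) (hj : 1 ≤ j)
    (hrel : ∀ k, II v k < i → tim (k + 1) ≤ j) :
    (1 / 8 : ℝ) * 2 ^ (i + j) ≤ ((tg v i j).card : ℝ) := by
  unfold tg
  rw [Finset.card_image_of_injOn]
  · have h1 : (((Z i ×ˢ Z j).filter (fun z => hit v i z.1 z.2)).card : ℝ) =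
        ∑ U ∈ Z i, (((Z j).filter (fun W => hit v i U W)).card : ℝ) := by
      rw [Finset.card_filter]
      rw [Finset.sum_product]
      push_cast
      apply Finset.sum_congr rfl
      intro U _
      rw [Finset.card_filter]
      push_cast
      rfl
    rw [h1]
    calc (1 / 8 : ℝ) * 2 ^ (i + j) ≤ (2 ^ i / 2) * ((3 / 8) * 2 ^ j) := by
          rw [pow_add]
          have : (0 : ℝ) < 2 ^ i * 2 ^ j := by positivity
          nlinarith
      _ = ∑ U ∈ Z i, ((3 / 8 : ℝ) * 2 ^ j) := by
          rw [Finset.sum_const, nsmul_eq_mul, card_Z i hi]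
      _ ≤ _ := Finset.sum_le_sum fun U _ => card_hit v i j U hj hrel
  · rintro ⟨U, W⟩ h ⟨U', W'⟩ h' heq
    rw [Finset.mem_coe, Finset.mem_filter, Finset.mem_product] at h h'
    unfold gp at heq
    have e1 := (Prod.ext_iff.1 heq).1
    have e2 := (Prod.ext_iff.1 heq).2
    simp only at e1 e2
    have m1 := Finset.mem_powerset.1 (Finset.mem_filter.1 h.1.1).1
    have m2 := Finset.mem_powerset.1 (Finset.mem_filter.1 h.1.2).1
    have m1' := Finset.mem_powerset.1 (Finset.mem_filter.1 h'.1.1).1
    have m2' := Finset.mem_powerset.1 (Finset.mem_filter.1 h'.1.2).1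
    exact Prod.ext (run_injOn m1 m1' e1) (run_injOn m2 m2' e2)

lemma lower_aux (v : Vtx) (r : ℕ) (hr : 2 ≤ r) (hab : v.1.2.natAbs ≤ v.2.2.natAbs) :
    ∃ F : Finset Vtx, (∀ u ∈ F, ∃ p : GG.Walk v u, p.length ≤ r) ∧
      ((r : ℝ) + 1) * 2 ^ r / 96 ≤ (F.card : ℝ) := by
  classical
  let J := Finset.Icc ((r + 7) / 8) (r / 2)
  have hJ : ∀ j ∈ J, 1 ≤ j ∧ j ≤ r ∧ r ≤ 8 * j ∧ 2 * j ≤ r := by
    intro j hj
    simp only [J, Finset.mem_Icc] at hj
    omega
  have hrel : ∀ j ∈ J, ∀ k, II v k < r - j → tim (k + 1) ≤ j := by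
    intro j hj k hk
    have h1 := hJ j hj
    have h2 : tim (k + 1) * 8 = rad k := by unfold rad; ring
    unfold II at hk
    omega
  refine ⟨J.biUnion (fun j => tg v (r - j) j), ?_, ?_⟩
  · intro u hu
    rw [Finset.mem_biUnion] at hu
    obtain ⟨j, hj, hu⟩ := hu
    have hj' := hJ j hj
    unfold tg at hu
    rw [Finset.mem_image] at hu
    obtain ⟨⟨U, W⟩, h1, rfl⟩ := hu
    rw [Finset.mem_filter, Finset.mem_product] at h1
    have hU : 0 ∈ U := (Finset.mem_filter.1 h1.1.1).2
    have hW : 0 ∈ W := (Finset.mem_filter.1 h1.1.2).2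
    obtain ⟨k1, hk1⟩ := exists_inS v
    have hex : ∃ k, inS k v := ⟨k1, hk1 k1 le_rfl⟩
    obtain ⟨p, hp⟩ := reach_final (v := v) (k0 := Nat.find hex) (i := r - j) (j := j) hU hW
      (Nat.find_spec hex)
      (fun k hk => Nat.find_min hex hk) hab (by omega) (by omega)
      (fun k _ hk => h1.2 k hk)
    exact ⟨p, by omega⟩
  · rw [Finset.card_biUnion]
    · push_cast
      have h1 : ∑ j ∈ J, (1 / 8 : ℝ) * 2 ^ r ≤ ∑ j ∈ J, ((tg v (r - j) j).card : ℝ) := by
        apply Finset.sum_le_sum
        intro j hj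
        have hj' := hJ j hj
        have := card_tg v (r - j) j (by omega) (by omega) (hrel j hj)
        have e : r - j + j = r := by omega
        rwa [e] at this
      refine le_trans ?_ h1
      rw [Finset.sum_const, nsmul_eq_mul]
      have hcard : ((r : ℝ) + 1) / 12 ≤ (J.card : ℝ) := by
        simp only [J, Nat.card_Icc]
        have h2 : (r + 1) ≤ 12 * (r / 2 + 1 - (r + 7) / 8) := by omega
        have h3 : ((r + 1 : ℕ) : ℝ) ≤ ((12 * (r / 2 + 1 - (r + 7) / 8) : ℕ) : ℝ) := by
          exact_mod_cast h2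
        push_cast at h3 ⊢
        linarith
      have : (0 : ℝ) < 2 ^ r := by positivity
      calc ((r : ℝ) + 1) * 2 ^ r / 96 = (((r : ℝ) + 1) / 12) * (1 / 8 * 2 ^ r) := by ring
        _ ≤ (J.card : ℝ) * (1 / 8 * 2 ^ r) := by
            apply mul_le_mul_of_nonneg_right hcard (by positivity)
    · intro j hj j' hj' hne
      rw [Function.onFun, Finset.disjoint_left]
      intro u hu hu'
      unfold tg at hu hu'
      rw [Finset.mem_image] at hu hu'
      obtain ⟨⟨U, W⟩, _, h1⟩ := hu
      obtain ⟨⟨U', W'⟩, _, h2⟩ := hu'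
      apply hne
      have h3 : (gp v U W (r - j) j).2.2 = (gp v U' W' (r - j') j').2.2 := by
        rw [h1, h2]
      unfold gp at h3
      simp only [run_pos] at h3
      unfold pos at h3
      by_cases hd : dir v.2 = true
      · rw [if_pos hd, if_pos hd] at h3
        omega
      · rw [if_neg hd, if_neg hd] at h3
        omega

lemma lower_bound (v : Vtx) (r : ℕ) :
    ∃ F : Finset Vtx, (∀ u ∈ F, ∃ p : GG.Walk v u, p.length ≤ r) ∧
      ((r : ℝ) + 1) * 2 ^ r / 96 ≤ (F.card : ℝ) := by
  classical
  rcases Nat.lt_or_ge r 2 with hr | hr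
  · refine ⟨{v}, ?_, ?_⟩
    · intro u hu
      rw [Finset.mem_singleton] at hu
      subst hu
      exact ⟨Walk.nil, by simp⟩
    · interval_cases r <;> norm_num
  · rcases le_total v.1.2.natAbs v.2.2.natAbs with hab | hab
    · exact lower_aux v r hr hab
    · obtain ⟨F, h1, h2⟩ := lower_aux v.swap r hr hab
      refine ⟨F.image Prod.swap, ?_, ?_⟩
      · intro u hu
        rw [Finset.mem_image] at hu
        obtain ⟨u', hu', rfl⟩ := hu
        obtain ⟨p, hp⟩ := h1 u' hu'
        exact ⟨(p.map swapHom).copy (by simp [swapHom]) (by simp [swapHom]), by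
          rw [Walk.length_copy, Walk.length_map]; exact hp⟩
      · rw [Finset.card_image_of_injective _ Prod.swap_injective]
        exact h2

end

end Pool.Agent.MPfc4263
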