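import Mathlib

/-!
Definitions for the question on positive Cheeger constants inside graphs of uniform
exponential growth.
-/

namespace Pool.Agent.MPfc4263

variable {V : Type*}

/-- The closed ball of real radius `r` about `v` for the graph metric of `G`. -/
def ball (G : SimpleGraph V) (v : V) (r : ℝ) : Set V := {u | (G.dist v u : ℝ) ≤ r}

/-- `|B(v,r)| ≤ C |B(u,r)|` for all vertices `u, v` and all real `r > 0`. -/
def UniformVolumeGrowth (G : SimpleGraph V) : Prop :=
  ∃ C : ℝ, 0 < C ∧ ∀ u v : V, ∀ r : ℝ, 0 < r →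
    ((ball G v r).ncard : ℝ) ≤ C * (ball G u r).ncard

/-- `|B(v,r)| > K a ^ r` for all vertices `v` and all real `r > 0`, with `a > 1`, `K > 0`. -/
def ExponentialGrowth (G : SimpleGraph V) : Prop :=
  ∃ a K : ℝ, 1 < a ∧ 0 < K ∧ ∀ v : V, ∀ r : ℝ, 0 < r →
    K * a ^ r < ((ball G v r).ncard : ℝ)

/-- The set of edges of the subgraph `H` with exactly one endpoint in `S`. -/
def edgeBoundary {G : SimpleGraph V} (H : G.Subgraph) (S : Set V) : Set (Sym2 V) :=
  {e | e ∈ H.edgeSet ∧ ∃ x ∈ S, ∃ y, y ∉ S ∧ e = s(x, y)}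

/-- The Cheeger constant of the subgraph `H`, computed inside `H`: the infimum of
`|∂_H S| / |S|` over all finite nonempty sets `S` of vertices of `H`. -/
noncomputable def cheeger {G : SimpleGraph V} (H : G.Subgraph) : ℝ :=
  sInf {q : ℝ | ∃ S : Finset V, S.Nonempty ∧ (S : Set V) ⊆ H.verts ∧
    q = ((edgeBoundary H (S : Set V)).ncard : ℝ) / (S.card : ℝ)}

end Pool.Agent.MPfc4263
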