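import Pool.Agent.MP_fc4263_co.Defs

namespace Pool.Agent.MPfc4263

open SimpleGraph

/-- A tape: a finite set of lit lamps and the position of the walker.
The lamp `y` sits between the positions `y` and `y + 1`. -/
abbrev Tape := Finset ℤ × ℤ

/-- One step of the walker, possibly switching the lamp that is crossed. -/
def tAdj (a a' : Tape) : Prop :=
  (a'.2 = a.2 + 1 ∧ ∀ y, y ≠ a.2 → (y ∈ a.1 ↔ y ∈ a'.1)) ∨
  (a.2 = a'.2 + 1 ∧ ∀ y, y ≠ a'.2 → (y ∈ a.1 ↔ y ∈ a'.1))

lemma tAdj.symm {a a' : Tape} (h : tAdj a a') : tAdj a' a := by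
  rcases h with ⟨h1, h2⟩ | ⟨h1, h2⟩
  · right
    exact ⟨h1, fun y hy => (h2 y hy).symm⟩
  · left
    exact ⟨h1, fun y hy => (h2 y hy).symm⟩

lemma tAdj.irrefl {a : Tape} (h : tAdj a a) : False := by
  rcases h with ⟨h1, _⟩ | ⟨h1, _⟩ <;> omega

abbrev Vtx := Tape × Tape

/-- The Cartesian product of two lamplighter graphs. -/
def G0 : SimpleGraph Vtx where
  Adj v v' := (tAdj v.1 v'.1 ∧ v.2 = v'.2) ∨ (v.1 = v'.1 ∧ tAdj v.2 v'.2)
  symm := ⟨fun _ _ h => by
    rcases h with ⟨h1, h2⟩ | ⟨h1, h2⟩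
    · exact Or.inl ⟨h1.symm, h2.symm⟩
    · exact Or.inr ⟨h1.symm, h2.symm⟩⟩
  loopless := ⟨fun _ h => by
    rcases h with ⟨h1, _⟩ | ⟨_, h1⟩
    · exact h1.irrefl
    · exact h1.irrefl⟩

/-- Tapes living in `[-m, m]`. -/
def inA (m : ℕ) (a : Tape) : Prop := |a.2| ≤ m ∧ ∀ y ∈ a.1, -(m : ℤ) ≤ y ∧ y < m

/-- parity of the number of lit lamps congruent to `c` modulo `p` -/
def par (p : ℕ) (w : Finset ℤ) (c : ℤ) : ZMod 2 := ∑ y ∈ w, if (p : ℤ) ∣ y - c then 1 else 0

def hash (s : ℕ) (a b : Tape) : Prop :=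
  ∀ c : ℤ, par (8 * s) b.1 c + par (2 * s) a.1 c =
    if ((8 * s : ℕ) : ℤ) ∣ c - b.2 - 4 * s then 1 else 0

def sep (k : ℕ) : ℕ := 2 * k + 1
def per (k : ℕ) : ℕ := 8 * sep k
def rep (k : ℕ) : ℕ := (k + 4) * 2 ^ per k
def tim : ℕ → ℕ
  | 0 => 0
  | k + 1 => tim k + rep k * per k
def rad (k : ℕ) : ℕ := 8 * tim (k + 1)

def inS (k : ℕ) (v : Vtx) : Prop := inA (rad k) v.1 ∧ inA (rad k) v.2

def face (k : ℕ) (a b : Tape) : Prop :=
  |a.2| = rad k ∧ |b.2| + sep k ≤ rad k ∧ hash (sep k) a b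

def port (k : ℕ) (v : Vtx) : Prop := inS k v ∧ (face k v.1 v.2 ∨ face k v.2 v.1)

/-- The example: all edges of `G0` that leave some `inS k` away from its ports are removed. -/
def GG : SimpleGraph Vtx where
  Adj v v' := G0.Adj v v' ∧ ∀ k, (inS k v → ¬ inS k v' → port k v) ∧
    (inS k v' → ¬ inS k v → port k v')
  symm := ⟨fun _ _ h => ⟨h.1.symm, fun k => ⟨(h.2 k).2, (h.2 k).1⟩⟩⟩
  loopless := ⟨fun _ h => G0.loopless.irrefl _ h.1⟩

lemma GG_le : GG ≤ G0 := fun _ _ h => h.1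

/-! ### parities -/

lemma par_congr {p : ℕ} {w w' : Finset ℤ} {c : ℤ}
    (h : ∀ y, (p : ℤ) ∣ y - c → (y ∈ w ↔ y ∈ w')) : par p w c = par p w' c := by
  unfold par
  rw [← Finset.sum_filter, ← Finset.sum_filter]
  congr 1
  ext y
  simp only [Finset.mem_filter]
  constructor
  · rintro ⟨h1, h2⟩; exact ⟨(h y h2).1 h1, h2⟩
  · rintro ⟨h1, h2⟩; exact ⟨(h y h2).2 h1, h2⟩

lemma par_periodic {p : ℕ} {w : Finset ℤ} {c c' : ℤ} (h : (p : ℤ) ∣ c - c') :
    par p w c = par p w c' := by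
  unfold par
  apply Finset.sum_congr rfl
  intro y _
  have : (p : ℤ) ∣ y - c ↔ (p : ℤ) ∣ y - c' := by
    have e : y - c' = (y - c) + (c - c') := by ring
    rw [e]
    exact (dvd_add_left h).symm
  simp only [this]

lemma par_eq_erase {p : ℕ} (w : Finset ℤ) (y0 : ℤ) :
    par p w y0 = (if y0 ∈ w then 1 else 0) + par p (w.erase y0) y0 := by
  unfold par
  by_cases h : y0 ∈ w
  · rw [← Finset.add_sum_erase w _ h]
    simp [h]
  · rw [Finset.erase_eq_of_notMem h]
    simp [h]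

lemma par_ne {p : ℕ} {w w' : Finset ℤ} {y0 u z : ℤ}
    (hout : ∀ y, (y < u ∨ z ≤ y) → (y ∈ w ↔ y ∈ w')) (huz : z - u ≤ p)
    (hy : ¬ (y0 ∈ w ↔ y0 ∈ w')) : par p w y0 ≠ par p w' y0 := by
  have hin : u ≤ y0 ∧ y0 < z := by
    by_contra hcon
    apply hy
    apply hout
    omega
  rw [par_eq_erase w, par_eq_erase w']
  have h2 : par p (w.erase y0) y0 = par p (w'.erase y0) y0 := by
    apply par_congr
    intro y hdvd
    simp only [Finset.mem_erase]
    by_cases hyy : y = y0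
    · simp [hyy]
    · have : y < u ∨ z ≤ y := by
        obtain ⟨q, hq⟩ := hdvd
        have hq0 : q ≠ 0 := by
          rintro rfl
          apply hyy
          linarith
        rcases lt_or_gt_of_ne hq0 with h | h
        · left
          have : (p : ℤ) * q ≤ (p : ℤ) * (-1) := by
            apply mul_le_mul_of_nonneg_left _ (by positivity)
            omega
          omega
        · right
          have : (p : ℤ) * 1 ≤ (p : ℤ) * q := by
            apply mul_le_mul_of_nonneg_left _ (by positivity)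
            omega
          omega
      rw [hout y this]
  rw [h2]
  intro h
  have h3 := add_right_cancel h
  by_cases h4 : y0 ∈ w <;> by_cases h5 : y0 ∈ w' <;> simp_all

/-! ### distances in the product of lamplighter graphs -/

/-- `a` can only be reached from `a0` in `n` steps if this holds. -/
def QQ (a0 a : Tape) (n : ℕ) : Prop :=
  ∃ k l : ℕ, (∀ y, (y < a0.2 - k ∨ a0.2 + l ≤ y) → (y ∈ a.1 ↔ y ∈ a0.1)) ∧
    a0.2 - k ≤ a.2 ∧ a.2 ≤ a0.2 + l ∧ 2 * ((k : ℤ) + l) ≤ n + |a.2 - a0.2|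

lemma QQ.refl (a : Tape) : QQ a a 0 := ⟨0, 0, by simp, by simp, by simp, by simp⟩

lemma QQ.mono {a0 a : Tape} {n n' : ℕ} (h : QQ a0 a n) (hn : n ≤ n') : QQ a0 a n' := by
  obtain ⟨k, l, h1, h2, h3, h4⟩ := h
  exact ⟨k, l, h1, h2, h3, by omega⟩

lemma QQ.step {a0 a a' : Tape} {n : ℕ} (h : QQ a0 a n) (h' : tAdj a a') :
    QQ a0 a' (n + 1) := by
  obtain ⟨k, l, h1, h2, h3, h4⟩ := h
  rcases h' with ⟨h5, h6⟩ | ⟨h5, h6⟩
  · by_cases hl : a.2 = a0.2 + l
    · refine ⟨k, l + 1, ?_, ?_, ?_, ?_⟩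
      · intro y hy
        rw [← h6 y (by push_cast at hy; omega)]
        apply h1
        push_cast at hy
        omega
      · omega
      · push_cast; omega
      · push_cast
        have e1 : |a.2 - a0.2| = l := by rw [hl]; simp
        have e2 : |a'.2 - a0.2| = l + 1 := by
          rw [h5, hl, abs_of_nonneg] <;> [ring; omega]
        rw [e1] at h4
        rw [e2]
        omega
    · refine ⟨k, l, ?_, ?_, ?_, ?_⟩
      · intro y hy
        rw [← h6 y (by omega)]
        exact h1 y hy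
      · omega
      · omega
      · push_cast
        have := abs_sub_abs_le_abs_sub (a.2 - a0.2) (a'.2 - a0.2)
        have e : a.2 - a0.2 - (a'.2 - a0.2) = -1 := by omega
        rw [e] at this
        simp only [abs_neg, abs_one] at this
        omega
  · by_cases hl : a.2 = a0.2 - k
    · refine ⟨k + 1, l, ?_, ?_, ?_, ?_⟩
      · intro y hy
        rw [← h6 y (by push_cast at hy; omega)]
        apply h1
        push_cast at hy
        omega
      · push_cast; omega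
      · omega
      · push_cast
        have e1 : |a.2 - a0.2| = k := by rw [hl]; simp
        have e2 : |a'.2 - a0.2| = k + 1 := by
          rw [abs_of_nonpos] <;> omega
        rw [e1] at h4
        rw [e2]
        omega
    · refine ⟨k, l, ?_, ?_, ?_, ?_⟩
      · intro y hy
        rw [← h6 y (by omega)]
        exact h1 y hy
      · omega
      · omega
      · push_cast
        have := abs_sub_abs_le_abs_sub (a.2 - a0.2) (a'.2 - a0.2)
        have e : a.2 - a0.2 - (a'.2 - a0.2) = 1 := by omega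
        rw [e] at this
        simp only [abs_one] at this
        omega

lemma QQ_of_walk {v0 v : Vtx} (p : G0.Walk v v0) :
    ∃ n1 n2 : ℕ, n1 + n2 = p.length ∧ QQ v0.1 v.1 n1 ∧ QQ v0.2 v.2 n2 := by
  induction p with
  | nil => exact ⟨0, 0, rfl, QQ.refl _, QQ.refl _⟩
  | @cons u v w h p ih =>
    obtain ⟨n1, n2, hn, h1, h2⟩ := ih
    rcases h with ⟨h3, h4⟩ | ⟨h3, h4⟩
    · refine ⟨n1 + 1, n2, ?_, h1.step h3.symm, ?_⟩
      · rw [Walk.length_cons]; omega
      · rw [h4]; exact h2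
    · refine ⟨n1, n2 + 1, ?_, ?_, h2.step h4.symm⟩
      · rw [Walk.length_cons]; omega
      · rw [h3]; exact h1

/-- The consequences of `QQ` used for the separation of ports. -/
lemma QQ.window {a0 a : Tape} {n : ℕ} (h : QQ a0 a n) :
    ∃ k l : ℕ, (∀ y, (y < a0.2 - k ∨ a0.2 + l ≤ y) → (y ∈ a.1 ↔ y ∈ a0.1)) ∧
      k + l ≤ n ∧ |a.2 - a0.2| ≤ n := by
  obtain ⟨k, l, h1, h2, h3, h4⟩ := h
  have h5 : |a.2 - a0.2| ≤ k + l := by
    rw [abs_le]; constructor <;> omega
  exact ⟨k, l, h1, by omega, by omega⟩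

end Pool.Agent.MPfc4263
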