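import Pool.Agent.MP_fc4263_co.Run

namespace Pool.Agent.MPfc4263

open SimpleGraph Finset

noncomputable section

lemma inA_mono {m m' : ℕ} {a : Tape} (h : inA m a) (hm : m ≤ m') : inA m' a := by
  obtain ⟨h1, h2⟩ := h
  refine ⟨by omega, fun y hy => ?_⟩
  have := h2 y hy
  omega

lemma inS_mono {k k' : ℕ} {v : Vtx} (h : inS k v) (hk : k ≤ k') : inS k' v :=
  ⟨inA_mono h.1 (rad_strictMono.monotone hk), inA_mono h.2 (rad_strictMono.monotone hk)⟩

lemma lt_rad (k : ℕ) : k < rad k := by
  have := sep_lt_rad k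
  unfold sep at this
  omega

lemma tim_lt_rad (k : ℕ) : tim (k + 1) < rad k := by
  unfold rad
  have := tim_lt_succ k
  have := per_pos k
  omega

lemma exists_inA (a : Tape) : ∃ k0, ∀ k ≥ k0, inA (rad k) a := by
  refine ⟨a.2.natAbs + a.1.sup (fun y => y.natAbs + 1), fun k hk => ?_⟩
  have h1 := lt_rad k
  refine ⟨by rw [abs_le]; constructor <;> omega, fun y hy => ?_⟩
  have h2 : y.natAbs + 1 ≤ a.1.sup (fun y => y.natAbs + 1) :=
    Finset.le_sup (f := fun y : ℤ => y.natAbs + 1) hy
  omega

lemma exists_inS (v : Vtx) : ∃ k0, ∀ k ≥ k0, inS k v := by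
  obtain ⟨k1, h1⟩ := exists_inA v.1
  obtain ⟨k2, h2⟩ := exists_inA v.2
  exact ⟨k1 + k2, fun k hk => ⟨h1 k (by omega), h2 k (by omega)⟩⟩

/-- grid point -/
def gp (v : Vtx) (U W : Finset ℕ) (s t : ℕ) : Vtx :=
  (run (dir v.1) v.1 U s, run (dir v.2) v.2 W t)

def II (v : Vtx) (k : ℕ) : ℕ := rad k + v.1.2.natAbs
def JJ (v : Vtx) (k : ℕ) : ℕ := rad k + v.2.2.natAbs

lemma II_lt {v : Vtx} {k k' : ℕ} (h : k < k') : II v k < II v k' := by
  unfold II
  have := rad_strictMono h
  omega

lemma II_le {v : Vtx} {k k' : ℕ} (h : k ≤ k') : II v k ≤ II v k' := by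
  unfold II
  have := rad_strictMono.monotone h
  omega

section grid

variable {v : Vtx} {U W : Finset ℕ} (hU : 0 ∈ U) (hW : 0 ∈ W)

include hU hW

lemma gp_inS {k s t : ℕ} : inS k (gp v U W s t) ↔ inS k v ∧ s ≤ II v k ∧ t ≤ JJ v k := by
  unfold inS gp II JJ
  by_cases ha : inA (rad k) v.1
  · by_cases hb : inA (rad k) v.2
    · rw [run_inA_iff ha, run_inA_iff hb]
      simp [ha, hb]
    · simp only [hb, and_false, false_and, iff_false, not_and]
      intro _
      exact run_not_inA hb hW
  · simp only [ha, false_and, iff_false, not_and]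
    intro h
    exact absurd h (run_not_inA ha hU)

lemma gp_horiz {s t : ℕ} (h : ∀ k, inS k v → s = II v k → t ≤ JJ v k → port k (gp v U W s t)) :
    GG.Adj (gp v U W s t) (gp v U W (s + 1) t) := by
  refine ⟨Or.inl ⟨run_adj _ _ _ _, rfl⟩, fun k => ⟨?_, ?_⟩⟩
  · intro h1 h2
    rw [gp_inS hU hW] at h1 h2
    apply h k h1.1 _ h1.2.2
    have : ¬ (s + 1 ≤ II v k) := fun h3 => h2 ⟨h1.1, h3, h1.2.2⟩
    omega
  · intro h1 h2
    exfalso
    rw [gp_inS hU hW] at h1 h2
    exact h2 ⟨h1.1, by omega, h1.2.2⟩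

lemma gp_vert {s t : ℕ} (h : ∀ k, inS k v → t = JJ v k → s ≤ II v k → port k (gp v U W s t)) :
    GG.Adj (gp v U W s t) (gp v U W s (t + 1)) := by
  refine ⟨Or.inr ⟨rfl, run_adj _ _ _ _⟩, fun k => ⟨?_, ?_⟩⟩
  · intro h1 h2
    rw [gp_inS hU hW] at h1 h2
    apply h k h1.1 _ h1.2.1
    have : ¬ (t + 1 ≤ JJ v k) := fun h3 => h2 ⟨h1.1, h1.2.1, h3⟩
    omega
  · intro h1 h2
    exfalso
    rw [gp_inS hU hW] at h1 h2
    exact h2 ⟨h1.1, h1.2.1, by omega⟩

lemma reach_horiz {s t n : ℕ} (hR : ∃ p : GG.Walk v (gp v U W s t), p.length = s + t)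
    (h : ∀ s', s ≤ s' → s' < s + n → ∀ k, inS k v → s' = II v k → t ≤ JJ v k → False) :
    ∃ p : GG.Walk v (gp v U W (s + n) t), p.length = s + n + t := by
  induction n with
  | zero => simpa using hR
  | succ n ih =>
    obtain ⟨p, hp⟩ := ih (fun s' h1 h2 => h s' h1 (by omega))
    have hadj := gp_horiz (v := v) (s := s + n) (t := t) hU hW
      (fun k hk h1 h2 => (h (s + n) (by omega) (by omega) k hk h1 h2).elim)
    exact ⟨p.concat hadj, by rw [Walk.length_concat, hp]; omega⟩

lemma reach_vert {s t n : ℕ} (hR : ∃ p : GG.Walk v (gp v U W s t), p.length = s + t)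
    (h : ∀ t', t ≤ t' → t' < t + n → ∀ k, inS k v → t' = JJ v k → s ≤ II v k → False) :
    ∃ p : GG.Walk v (gp v U W s (t + n)), p.length = s + (t + n) := by
  induction n with
  | zero => simpa using hR
  | succ n ih =>
    obtain ⟨p, hp⟩ := ih (fun s' h1 h2 => h s' h1 (by omega))
    have hadj := gp_vert (v := v) (s := s) (t := t + n) hU hW
      (fun k hk h1 h2 => (h (t + n) (by omega) (by omega) k hk h1 h2).elim)
    exact ⟨p.concat hadj, by rw [Walk.length_concat, hp]; omega⟩

/-- crossing the boundary of the `k`-th set through a port -/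
lemma cross {k s t0 : ℕ} (hk : inS k v) (hs : s ≤ II v k)
    (hlow : ∀ k', inS k' v → k' < k → II v k' < s) (ht0 : t0 ≤ tim k)
    (hR : ∃ p : GG.Walk v (gp v U W s t0), p.length = s + t0)
    (hh : ∃ n < rep k, hash (sep k) (run (dir v.1) v.1 U (II v k))
      (run (dir v.2) v.2 W (tim k + (n + 1) * per k))) :
    ∃ t ≤ tim (k + 1), ∃ p : GG.Walk v (gp v U W (II v k + 1) t), p.length = II v k + 1 + t := by
  obtain ⟨n, hn, hh⟩ := hh
  set t := tim k + (n + 1) * per k with ht
  have hper : per k ≤ (n + 1) * per k := Nat.le_mul_of_pos_left _ (by omega)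
  have htle : t ≤ tim (k + 1) := by
    rw [tim_succ, ht]
    have : (n + 1) * per k ≤ rep k * per k := Nat.mul_le_mul_right _ hn
    omega
  have htr := tim_lt_rad k
  -- vertical
  have h1 : ∃ p : GG.Walk v (gp v U W s t), p.length = s + t := by
    obtain ⟨n', hn'⟩ := Nat.exists_eq_add_of_le (show t0 ≤ t by omega)
    rw [hn']
    apply reach_vert hU hW hR
    intro t' h1 h2 k' hk' h3 h4
    rcases Nat.lt_or_ge k' k with h | h
    · have := hlow k' hk' h
      omega
    · have h5 := rad_strictMono.monotone h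
      unfold JJ at h3
      omega
  -- horizontal
  have h2 : ∃ p : GG.Walk v (gp v U W (II v k) t), p.length = II v k + t := by
    obtain ⟨n', hn'⟩ := Nat.exists_eq_add_of_le hs
    rw [hn']
    apply reach_horiz hU hW h1
    intro s' h3 h4 k' hk' h5 h6
    rcases Nat.lt_or_ge k' k with h | h
    · have := hlow k' hk' h
      omega
    · have := II_le (v := v) h
      omega
  obtain ⟨p, hp⟩ := h2
  have hadj : GG.Adj (gp v U W (II v k) t) (gp v U W (II v k + 1) t) := by
    apply gp_horiz hU hW
    intro k' hk' h3 h4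
    have hkk : k' = k := by
      rcases Nat.lt_trichotomy k' k with h | h | h
      · have := II_lt (v := v) h; omega
      · exact h
      · have := II_lt (v := v) h; omega
    subst hkk
    refine ⟨(gp_inS hU hW).2 ⟨hk', by omega, h4⟩, Or.inl ⟨?_, ?_, ?_⟩⟩
    · -- position of the first walker
      have h5 := abs_le.1 hk'.1.1
      change |(run (dir v.1) v.1 U (II v k')).2| = _
      rw [run_pos]
      unfold pos dir II
      by_cases hx : v.1.2 < 0
      · simp only [hx, decide_true, if_true, Nat.cast_add]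
        rw [abs_of_nonneg] <;> omega
      · simp only [hx, decide_false, Bool.false_eq_true, if_false, Nat.cast_add]
        rw [abs_of_nonpos] <;> omega
    · -- position of the second walker
      have h5 := abs_le.1 hk'.2.1
      change |(run (dir v.2) v.2 W t).2| + _ ≤ _
      rw [run_pos]
      have h6 := sep_le_per k'
      have h7 : tim (k' + 1) * 8 = rad k' := by unfold rad; ring
      have h8 := tim_lt_succ k'
      unfold pos dir
      by_cases hx : v.2.2 < 0
      · simp only [hx, decide_true, if_true]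
        rcases le_total (v.2.2 + (t : ℤ)) 0 with h9 | h9
        · rw [abs_of_nonpos h9]
          omega
        · rw [abs_of_nonneg h9]
          omega
      · simp only [hx, decide_false, Bool.false_eq_true, if_false]
        rcases le_total (v.2.2 - (t : ℤ)) 0 with h9 | h9
        · rw [abs_of_nonpos h9]
          omega
        · rw [abs_of_nonneg h9]
          omega
    · exact hh
  exact ⟨t, htle, p.concat hadj, by rw [Walk.length_concat, hp]; omega⟩

/-- reaching the far grid point -/
lemma reach_final {k0 i j : ℕ} (hk0 : inS k0 v) (hmin : ∀ k < k0, ¬ inS k v)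
    (hab : v.1.2.natAbs ≤ v.2.2.natAbs) (hji : j ≤ i) (h8 : i + j ≤ 8 * j)
    (hh : ∀ k, k0 ≤ k → II v k < i → ∃ n < rep k,
      hash (sep k) (run (dir v.1) v.1 U (II v k))
        (run (dir v.2) v.2 W (tim k + (n + 1) * per k))) :
    ∃ p : GG.Walk v (gp v U W i j), p.length = i + j := by
  have hstart : ∃ p : GG.Walk v (gp v U W 0 0), p.length = 0 + 0 := by
    have e : gp v U W 0 0 = v := by
      unfold gp
      rw [run_zero, run_zero]
    rw [e]
    exact ⟨Walk.nil, rfl⟩
  have hcr : ∀ k, k0 ≤ k → II v k < i → ∃ t ≤ tim (k + 1),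
      ∃ p : GG.Walk v (gp v U W (II v k + 1) t), p.length = II v k + 1 + t := by
    intro k hk
    induction k, hk using Nat.le_induction with
    | base =>
      intro hi
      apply cross hU hW hk0 (Nat.zero_le _) _ (Nat.zero_le _) hstart (hh k0 le_rfl hi)
      intro k' hk' hlt
      exact absurd hk' (hmin k' hlt)
    | succ k hk ih =>
      intro hi
      have hlt := II_lt (v := v) (Nat.lt_add_one k)
      obtain ⟨t, ht, hR⟩ := ih (by omega)
      apply cross hU hW (inS_mono hk0 (by omega)) (by omega) _ ht hR (hh (k + 1) (by omega) hi)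
      intro k' _ hk'
      have := II_le (v := v) (show k' ≤ k by omega)
      omega
  -- the last set that is left
  have hlast : ∃ s0 t0, s0 ≤ i ∧ t0 ≤ j ∧
      (∃ p : GG.Walk v (gp v U W s0 t0), p.length = s0 + t0) ∧
      ∀ k', inS k' v → II v k' < s0 ∨ i ≤ II v k' := by
    by_cases hex : ∃ k, k0 ≤ k ∧ II v k < i
    · classical
      have hfin : ∀ k, II v k < i → k ≤ i := by
        intro k hk
        have := lt_rad k
        unfold II at hk
        omega
      set K := Nat.findGreatest (fun k => k0 ≤ k ∧ II v k < i) i with hK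
      obtain ⟨k, hk1, hk2⟩ := hex
      have hKs : k0 ≤ K ∧ II v K < i :=
        Nat.findGreatest_spec (P := fun k => k0 ≤ k ∧ II v k < i) (hfin k hk2) ⟨hk1, hk2⟩
      obtain ⟨t, ht, hR⟩ := hcr K hKs.1 hKs.2
      refine ⟨II v K + 1, t, by omega, ?_, hR, ?_⟩
      · have h9 : rad K ≤ II v K := by unfold II; omega
        unfold rad at h9
        omega
      · intro k' hk'
        by_contra hcon
        push Not at hcon
        have h1 : k0 ≤ k' := by
          by_contra h
          exact hmin k' (by omega) hk'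
        have h2 : k' ≤ K :=
          Nat.le_findGreatest (P := fun k => k0 ≤ k ∧ II v k < i) (hfin k' hcon.2) ⟨h1, hcon.2⟩
        have := II_le (v := v) h2
        omega
    · push Not at hex
      refine ⟨0, 0, Nat.zero_le _, Nat.zero_le _, hstart, ?_⟩
      intro k' hk'
      right
      apply hex
      by_contra h
      exact hmin k' (by omega) hk'
  obtain ⟨s0, t0, hs0, ht0, hR, hsep⟩ := hlast
  have h1 : ∃ p : GG.Walk v (gp v U W i t0), p.length = i + t0 := by
    obtain ⟨n', hn'⟩ := Nat.exists_eq_add_of_le hs0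
    rw [hn']
    apply reach_horiz hU hW hR
    intro s' h3 h4 k' hk' h5 h6
    have := hsep k' hk'
    omega
  obtain ⟨n', hn'⟩ := Nat.exists_eq_add_of_le ht0
  rw [hn']
  apply reach_vert hU hW h1
  intro t' h3 h4 k' hk' h5 h6
  unfold JJ at h5
  unfold II at h6
  omega

end grid

end

end Pool.Agent.MPfc4263
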