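import Pool.Agent.MP_fc4263_co.Defs

namespace Pool.Agent.MPfc4263

open SimpleGraph

variable {V : Type*} {G : SimpleGraph V}

lemma cheeger_nonneg (H : G.Subgraph) : 0 ≤ cheeger H := by
  unfold cheeger
  apply Real.sInf_nonneg
  rintro q ⟨S, _, _, rfl⟩
  positivity

lemma cheeger_le (H : G.Subgraph) (S : Finset V) (hS : S.Nonempty) (hSH : (S : Set V) ⊆ H.verts) :
    cheeger H ≤ ((edgeBoundary H (S : Set V)).ncard : ℝ) / (S.card : ℝ) := by
  unfold cheeger
  apply csInf_le
  · refine ⟨0, ?_⟩
    rintro q ⟨S, _, _, rfl⟩
    positivity
  · exact ⟨S, hS, hSH, rfl⟩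

/-- The part of `H` inside `S`. -/
def inside (H : G.Subgraph) (S : Set V) : SimpleGraph V where
  Adj x y := H.Adj x y ∧ x ∈ S ∧ y ∈ S
  symm := ⟨fun _ _ h => ⟨h.1.symm, h.2.2, h.2.1⟩⟩
  loopless := ⟨fun x h => H.loopless.irrefl x h.1⟩

lemma inside_le (H : G.Subgraph) (S : Set V) : inside H S ≤ G := by
  intro x y h
  exact H.adj_sub h.1

lemma reach_mem_verts (H : G.Subgraph) (S : Set V) {v x : V} (hv : v ∈ H.verts)
    (h : (inside H S).Reachable v x) : x ∈ H.verts := by
  obtain ⟨p⟩ := h
  induction p with
  | nil => exact hv
  | cons h p ih => exact ih (H.edge_vert h.1.symm)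

lemma reach_mem (H : G.Subgraph) (S : Set V) {v x : V} (hv : v ∈ S)
    (h : (inside H S).Reachable v x) : x ∈ S := by
  obtain ⟨p⟩ := h
  induction p with
  | nil => exact hv
  | cons h p ih => exact ih h.2.2

/-- A walk of `H` with support inside `S` gives reachability in `inside H S`. -/
lemma reach_of_walk (H : G.Subgraph) (S : Set V) {v x : V}
    (p : (inside H Set.univ).Walk v x) (hp : ∀ y ∈ p.support, y ∈ S) :
    (inside H S).Reachable v x := by
  induction p with
  | nil => exact Reachable.refl _
  | @cons a b c h p ih =>
    have hb : b ∈ S := hp b (by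
      rw [Walk.support_cons]
      exact List.mem_cons_of_mem _ (Walk.start_mem_support p))
    have ha : a ∈ S := hp a (by
      rw [Walk.support_cons]
      exact List.mem_cons_self)
    have h1 : (inside H S).Adj a b := ⟨h.1, ha, hb⟩
    refine (Adj.reachable h1).trans (ih ?_)
    intro y hy
    exact hp y (by rw [Walk.support_cons]; exact List.mem_cons_of_mem _ hy)

theorem cheeger_eq_zero_of_ports (S P : ℕ → Set V) (D : ℕ)
    (hfin : ∀ k, (S k).Finite) (hex : ∀ v, ∃ k0, ∀ k ≥ k0, v ∈ S k)
    (hdeg : ∀ v, (G.neighborSet v).Finite ∧ (G.neighborSet v).ncard ≤ D)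
    (hport : ∀ k x y, x ∈ S k → y ∉ S k → G.Adj x y → x ∈ P k)
    (hsep : ∀ k x y, x ∈ P k → y ∈ P k → x ≠ y → ∀ p : G.Walk x y, 2 * k < p.length)
    (H : G.Subgraph) (hH : H.verts.Infinite) : cheeger H = 0 := by
  classical
  apply le_antisymm _ (cheeger_nonneg H)
  obtain ⟨v0, hv0⟩ := hH.nonempty
  by_cases hC : {x | (inside H Set.univ).Reachable v0 x}.Finite
  · -- finite component
    have h := cheeger_le H hC.toFinset ⟨v0, by simp⟩ (by
      intro x hx
      simp only [Set.Finite.coe_toFinset, Set.mem_ofPred_eq] at hx
      exact reach_mem_verts H _ hv0 hx)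
    have he : edgeBoundary H (hC.toFinset : Set V) = ∅ := by
      rw [Set.eq_empty_iff_forall_notMem]
      rintro e ⟨heH, x, hx, y, hy, rfl⟩
      simp only [Set.Finite.coe_toFinset, Set.mem_ofPred_eq] at hx hy
      apply hy
      refine hx.trans (Adj.reachable ?_)
      exact ⟨heH, Set.mem_univ _, Set.mem_univ _⟩
    rw [he] at h
    simpa using h
  · -- infinite component
    have key : ∀ M : ℕ, 0 < M → cheeger H ≤ (D : ℝ) / M := by
      intro M hM
      obtain ⟨F, hFsub, hFcard⟩ := (show Set.Infinite _ from hC).exists_subset_card_eq M
      -- choose walks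
      have hw : ∀ x ∈ F, ∃ k1, ∀ k ≥ k1, (inside H (S k)).Reachable v0 x := by
        intro x hx
        obtain ⟨p⟩ := hFsub hx
        choose f hf using hex
        refine ⟨p.support.toFinset.sup f, fun k hk => reach_of_walk H _ p ?_⟩
        intro y hy
        apply hf y
        refine le_trans ?_ hk
        exact Finset.le_sup (f := f) (by simpa using hy)
      have hw' : ∃ k1, ∀ k ≥ k1, ∀ x ∈ F, (inside H (S k)).Reachable v0 x := by
        choose! g hg using hw
        refine ⟨F.sup g, fun k hk x hx => hg x hx k (le_trans (Finset.le_sup (f := g) hx) hk)⟩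
      obtain ⟨k1, hk1⟩ := hw'
      obtain ⟨k0, hk0⟩ := hex v0
      set k := k0 + k1 + M with hk
      have hv0S : v0 ∈ S k := hk0 k (by omega)
      have hKfin : {x | (inside H (S k)).Reachable v0 x}.Finite :=
        (hfin k).subset (fun x hx => reach_mem H _ hv0S hx)
      set K : Finset V := hKfin.toFinset with hKdef
      have hmemK : ∀ x, x ∈ K ↔ (inside H (S k)).Reachable v0 x := by
        intro x; simp [hKdef]
      have hMK : M ≤ K.card := by
        rw [← hFcard]
        apply Finset.card_le_card
        intro x hx
        rw [hmemK]
        exact hk1 k (by omega) x hx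
      set Q : Finset V := K.filter (fun x => x ∈ P k) with hQdef
      -- the boundary
      have hbd : (edgeBoundary H (K : Set V)).ncard ≤ D * Q.card := by
        have hsub : edgeBoundary H (K : Set V) ⊆
            ((Q.biUnion (fun x => ((hdeg x).1.toFinset).image (fun y => s(x, y))) :
              Finset (Sym2 V)) : Set (Sym2 V)) := by
          rintro e ⟨heH, x, hx, y, hy, rfl⟩
          have hx' : x ∈ K := by simpa using hx
          have hy' : y ∉ K := by simpa using hy
          have hxS : x ∈ S k := reach_mem H _ hv0S ((hmemK x).1 hx')
          have hadj : H.Adj x y := heH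
          have hyS : y ∉ S k := by
            intro hyS
            apply hy'
            rw [hmemK]
            exact ((hmemK x).1 hx').trans (Adj.reachable ⟨hadj, hxS, hyS⟩)
          have hxP : x ∈ P k := hport k x y hxS hyS (H.adj_sub hadj)
          simp only [Finset.coe_biUnion, Set.mem_iUnion, Finset.mem_coe, Finset.mem_image]
          refine ⟨x, ?_, y, ?_, rfl⟩
          · simp [hQdef, hx', hxP]
          · simpa using H.adj_sub hadj
        refine le_trans (Set.ncard_le_ncard hsub (Finset.finite_toSet _)) ?_
        rw [Set.ncard_coe_finset]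
        refine le_trans Finset.card_biUnion_le ?_
        calc ∑ x ∈ Q, (((hdeg x).1.toFinset).image (fun y => s(x, y))).card
            ≤ ∑ x ∈ Q, D := by
              apply Finset.sum_le_sum
              intro x _
              refine le_trans Finset.card_image_le ?_
              rw [← Set.ncard_eq_toFinset_card _ (hdeg x).1]
              exact (hdeg x).2
          _ = D * Q.card := by simp [mul_comm]
      have hKpos : 0 < K.card := lt_of_lt_of_le hM hMK
      have hKne : K.Nonempty := Finset.card_pos.1 hKpos
      have hle := cheeger_le H K hKne (by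
        intro x hx
        exact reach_mem_verts H _ hv0 ((hmemK x).1 (by simpa using hx)))
      refine hle.trans ?_
      rw [div_le_div_iff₀ (by exact_mod_cast hKpos) (by exact_mod_cast hM)]
      -- it remains to bound
      have hmain : Q.card * M ≤ K.card := by
        by_cases hQ : Q.card ≤ 1
        · calc Q.card * M ≤ 1 * M := Nat.mul_le_mul_right _ hQ
            _ ≤ K.card := by simpa using hMK
        · push Not at hQ
          -- every port in `K` owns `k+1` vertices
          have hpath : ∀ x ∈ Q, ∃ y ∈ Q, y ≠ x ∧ ∃ q : (inside H (S k)).Walk x y, q.IsPath := by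
            intro x hx
            obtain ⟨y, hy, hyx⟩ := Finset.exists_mem_ne hQ x
            refine ⟨y, hy, hyx, ?_⟩
            have hx1 := (hmemK x).1 (Finset.mem_filter.1 hx).1
            have hy1 := (hmemK y).1 (Finset.mem_filter.1 hy).1
            obtain ⟨q⟩ := hx1.symm.trans hy1
            exact ⟨q.toPath.1, q.toPath.2⟩
          choose! yy hyQ hyne qq hqq using hpath
          have hlen : ∀ x (hx : x ∈ Q), 2 * k < (qq x hx).length := by
            intro x hx
            have h2 := hsep k x (yy x) (Finset.mem_filter.1 hx).2
              (Finset.mem_filter.1 (hyQ x hx)).2 (hyne x hx).symm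
              ((qq x hx).mapLe (inside_le H (S k)))
            simpa using h2
          let φ : (Σ _ : {x // x ∈ Q}, Fin M) → V := fun z => (qq z.1.1 z.1.2).getVert z.2
          have hφK : ∀ z, φ z ∈ K := by
            intro z
            rw [hmemK]
            have hx1 := (hmemK z.1.1).1 (Finset.mem_filter.1 z.1.2).1
            exact hx1.trans ⟨(qq z.1.1 z.1.2).take z.2⟩
          have hφinj : Function.Injective φ := by
            rintro ⟨⟨x, hx⟩, n⟩ ⟨⟨x', hx'⟩, n'⟩ h
            have h' : (qq x hx).getVert n = (qq x' hx').getVert n' := h
            by_cases hxx : x = x'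
            · subst hxx
              have := (hqq x hx).getVert_injOn (by
                have := hlen x hx; have := n.2
                simp only [Set.mem_ofPred_eq]; omega) (by
                have := hlen x hx; have := n'.2
                simp only [Set.mem_ofPred_eq]; omega) h'
              have h3 : n = n' := Fin.ext this
              rw [h3]
            · exfalso
              have w1 : (inside H (S k)).Walk x ((qq x hx).getVert n) := (qq x hx).take n
              have hn1 : ((qq x hx).take n).length ≤ n := by
                rw [Walk.take_length]; omega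
              have hn2 : ((qq x' hx').take n').length ≤ n' := by
                rw [Walk.take_length]; omega
              let w : (inside H (S k)).Walk x x' :=
                ((qq x hx).take n).append ((((qq x' hx').take n').copy rfl h'.symm).reverse)
              have hwl : w.length ≤ n + n' := by
                simp only [w, Walk.length_append, Walk.length_reverse, Walk.length_copy]
                omega
              have h2 := hsep k x x' (Finset.mem_filter.1 hx).2 (Finset.mem_filter.1 hx').2 hxx
                (w.mapLe (inside_le H (S k)))
              have h4 : (w.mapLe (inside_le H (S k))).length = w.length := by simp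
              rw [h4] at h2
              have := n.2; have := n'.2
              omega
          have hcard : Fintype.card (Σ _ : {x // x ∈ Q}, Fin M) = Q.card * M := by
            simp
          rw [← hcard]
          have := Fintype.card_le_of_injective (fun z => (⟨φ z, hφK z⟩ : {x // x ∈ K}))
            (fun z z' h => hφinj (by simpa using h))
          simpa using this
      have h1 : (edgeBoundary H (K : Set V)).ncard * M ≤ D * K.card := by
        calc (edgeBoundary H (K : Set V)).ncard * M ≤ D * Q.card * M := Nat.mul_le_mul_right _ hbd
          _ = D * (Q.card * M) := by ring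
          _ ≤ D * K.card := Nat.mul_le_mul_left _ hmain
      exact_mod_cast h1
    -- let M tend to infinity
    by_contra hcon
    push Not at hcon
    obtain ⟨M, hM⟩ := exists_nat_gt ((D : ℝ) / cheeger H)
    have hM0 : 0 < (M : ℝ) := lt_of_le_of_lt (by positivity) hM
    have h := key M (by exact_mod_cast hM0)
    rw [div_lt_iff₀ hcon] at hM
    rw [le_div_iff₀ hM0] at h
    nlinarith
end Pool.Agent.MPfc4263
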