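import Pool.Agent.MP_fc4263_co.Count
import Pool.Agent.MP_fc4263_co.Ports

namespace Pool.Agent.MPfc4263

open SimpleGraph Finset

noncomputable section

/-! ### balls -/

lemma mem_ball_iff {v u : Vtx} {r : ℝ} (hr : 0 ≤ r) :
    u ∈ ball GG v r ↔ ∃ p : GG.Walk v u, p.length ≤ ⌊r⌋₊ := by
  unfold ball
  rw [Set.mem_ofPred_eq]
  constructor
  · intro h
    obtain ⟨p, hp⟩ := (GG_reachable v u).exists_walk_length_eq_dist
    exact ⟨p, by rw [hp]; exact Nat.le_floor h⟩
  · rintro ⟨p, hp⟩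
    have h1 := SimpleGraph.dist_le p
    have h2 : GG.dist v u ≤ ⌊r⌋₊ := h1.trans hp
    exact (Nat.le_floor_iff hr).1 h2

lemma ball_subset {v : Vtx} {r : ℝ} (hr : 0 ≤ r) : ball GG v r ⊆ (BB v ⌊r⌋₊ : Set Vtx) := by
  intro u hu
  obtain ⟨p, hp⟩ := (mem_ball_iff hr).1 hu
  have h := mem_BB (v0 := v) (v := u) (r := ⌊r⌋₊) (p.reverse.mapLe GG_le) (by simpa using hp)
  exact h

lemma ball_upper (v : Vtx) {r : ℝ} (hr : 0 ≤ r) :
    ((ball GG v r).ncard : ℝ) ≤ 256 * ((⌊r⌋₊ : ℝ) + 1) * 2 ^ ⌊r⌋₊ := by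
  have h1 := Set.ncard_le_ncard (ball_subset (v := v) hr) (Finset.finite_toSet _)
  rw [Set.ncard_coe_finset] at h1
  have h2 := card_BB v ⌊r⌋₊
  have h3 : ((ball GG v r).ncard : ℝ) ≤ ((BB v ⌊r⌋₊).card : ℝ) := by exact_mod_cast h1
  exact h3.trans h2

lemma ball_lower (v : Vtx) {r : ℝ} (hr : 0 ≤ r) :
    ((⌊r⌋₊ : ℝ) + 1) * 2 ^ ⌊r⌋₊ / 96 ≤ ((ball GG v r).ncard : ℝ) := by
  obtain ⟨F, h1, h2⟩ := lower_bound v ⌊r⌋₊
  have h3 : (F : Set Vtx) ⊆ ball GG v r := by
    intro u hu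
    exact (mem_ball_iff hr).2 (h1 u hu)
  have h4 := Set.ncard_le_ncard h3 ((Finset.finite_toSet _).subset (ball_subset hr))
  rw [Set.ncard_coe_finset] at h4
  have h5 : (F.card : ℝ) ≤ ((ball GG v r).ncard : ℝ) := by exact_mod_cast h4
  exact h2.trans h5

lemma GG_uniform : UniformVolumeGrowth GG := by
  refine ⟨256 * 96, by norm_num, fun u v r hr => ?_⟩
  have h1 := ball_upper v hr.le
  have h2 := ball_lower u hr.le
  have : 256 * ((⌊r⌋₊ : ℝ) + 1) * 2 ^ ⌊r⌋₊ =
      256 * 96 * (((⌊r⌋₊ : ℝ) + 1) * 2 ^ ⌊r⌋₊ / 96) := by ring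
  rw [this] at h1
  refine h1.trans ?_
  apply mul_le_mul_of_nonneg_left h2 (by norm_num)

lemma GG_exp : ExponentialGrowth GG := by
  refine ⟨2, 1 / 400, by norm_num, by norm_num, fun v r hr => ?_⟩
  have h1 := ball_lower v hr.le
  refine lt_of_lt_of_le ?_ h1
  have h2 : (2 : ℝ) ^ r < 2 ^ (⌊r⌋₊ + 1) := by
    rw [← Real.rpow_natCast]
    apply Real.rpow_lt_rpow_of_exponent_lt (by norm_num)
    push_cast
    exact Nat.lt_floor_add_one r
  rw [pow_succ] at h2
  have h3 : (0 : ℝ) < 2 ^ ⌊r⌋₊ := by positivity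
  have h4 : (0 : ℝ) ≤ (⌊r⌋₊ : ℝ) := by positivity
  nlinarith [mul_nonneg h4 h3.le]

/-! ### bounded degree -/

/-- a finite set containing all neighbours of a tape -/
def nbT (a : Tape) : Finset Tape :=
  {(insert a.2 a.1, a.2 + 1), (a.1.erase a.2, a.2 + 1),
    (insert (a.2 - 1) a.1, a.2 - 1), (a.1.erase (a.2 - 1), a.2 - 1)}

lemma mem_nbT {a a' : Tape} (h : tAdj a a') : a' ∈ nbT a := by
  unfold nbT
  simp only [Finset.mem_insert, Finset.mem_singleton]
  rcases h with ⟨h1, h2⟩ | ⟨h1, h2⟩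
  · by_cases h3 : a.2 ∈ a'.1
    · left
      refine Prod.ext ?_ h1
      ext y
      by_cases hy : y = a.2
      · simp [hy, h3]
      · rw [← h2 y hy, Finset.mem_insert]
        simp [hy]
    · right; left
      refine Prod.ext ?_ h1
      ext y
      by_cases hy : y = a.2
      · simp [hy, h3]
      · rw [← h2 y hy, Finset.mem_erase]
        simp [hy]
  · have h4 : a.2 - 1 = a'.2 := by omega
    rw [h4]
    by_cases h3 : a'.2 ∈ a'.1
    · right; right; left
      refine Prod.ext ?_ rfl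
      ext y
      by_cases hy : y = a'.2
      · simp [hy, h3]
      · rw [← h2 y hy, Finset.mem_insert]
        simp [hy]
    · right; right; right
      refine Prod.ext ?_ rfl
      ext y
      by_cases hy : y = a'.2
      · simp [hy, h3]
      · rw [← h2 y hy, Finset.mem_erase]
        simp [hy]

lemma card_nbT (a : Tape) : (nbT a).card ≤ 4 := Finset.card_le_four

lemma GG_nb (v : Vtx) : GG.neighborSet v ⊆
    (((nbT v.1).image (fun a => (a, v.2)) ∪ (nbT v.2).image (fun b => (v.1, b)) :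
      Finset Vtx) : Set Vtx) := by
  intro u hu
  have h : G0.Adj v u := hu.1
  rw [Finset.mem_coe, Finset.mem_union, Finset.mem_image, Finset.mem_image]
  rcases h with ⟨h1, h2⟩ | ⟨h1, h2⟩
  · left
    exact ⟨u.1, mem_nbT h1, Prod.ext rfl h2⟩
  · right
    exact ⟨u.2, mem_nbT h2, Prod.ext h1 rfl⟩

lemma GG_degree (v : Vtx) : (GG.neighborSet v).Finite ∧ (GG.neighborSet v).ncard ≤ 8 := by
  refine ⟨(Finset.finite_toSet _).subset (GG_nb v), ?_⟩
  refine (Set.ncard_le_ncard (GG_nb v) (Finset.finite_toSet _)).trans ?_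
  rw [Set.ncard_coe_finset]
  refine (Finset.card_union_le _ _).trans ?_
  have h1 := (Finset.card_image_le (s := nbT v.1) (f := fun a => (a, v.2))).trans (card_nbT v.1)
  have h2 := (Finset.card_image_le (s := nbT v.2) (f := fun b => (v.1, b))).trans (card_nbT v.2)
  omega

lemma inA_finite (m : ℕ) : {a : Tape | inA m a}.Finite := by
  have : {a : Tape | inA m a} ⊆
      (((Finset.Ico (-(m : ℤ)) m).powerset ×ˢ Finset.Icc (-(m : ℤ)) m : Finset Tape) : Set Tape) := by
    rintro a ⟨h1, h2⟩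
    rw [Finset.mem_coe, Finset.mem_product, Finset.mem_powerset, Finset.mem_Icc]
    rw [abs_le] at h1
    refine ⟨?_, h1⟩
    intro y hy
    rw [Finset.mem_Ico]
    exact h2 y hy
  exact (Finset.finite_toSet _).subset this

lemma inS_finite (k : ℕ) : {v : Vtx | inS k v}.Finite := by
  have : {v : Vtx | inS k v} = {a : Tape | inA (rad k) a} ×ˢ {a : Tape | inA (rad k) a} := by
    ext v
    rfl
  rw [this]
  exact (inA_finite _).prod (inA_finite _)

theorem GG_cheeger (H : GG.Subgraph) (hH : H.verts.Infinite) : cheeger H = 0 := by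
  apply cheeger_eq_zero_of_ports (fun k => {v | inS k v}) (fun k => {v | port k v}) 8
    inS_finite exists_inS GG_degree _ _ H hH
  · intro k x y hx hy hxy
    exact (hxy.2 k).1 hx hy
  · intro k x y hx hy hne p
    have := port_sep hx hy hne p.reverse
    simpa using this

theorem counterexample : ∃ (V : Type) (G : SimpleGraph V), Infinite V ∧ G.Connected ∧
    (∀ v, (G.neighborSet v).Finite) ∧ UniformVolumeGrowth G ∧ ExponentialGrowth G ∧
    ∀ H : G.Subgraph, H.verts.Infinite → cheeger H = 0 :=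
  ⟨Vtx, GG, inferInstance, GG_connected, fun v => (GG_degree v).1, GG_uniform, GG_exp, GG_cheeger⟩

end

end Pool.Agent.MPfc4263
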