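import Pool.Agent.MP_fc4263_co.Sep

namespace Pool.Agent.MPfc4263

open SimpleGraph Finset

noncomputable section

/-- the lamp crossed in step `n` -/
def lam (x : ℤ) (d : Bool) (n : ℕ) : ℤ := if d then x + n else x - n - 1

def pos (x : ℤ) (d : Bool) (n : ℕ) : ℤ := if d then x + n else x - n

/-- the tape after `n` steps in direction `d`, writing the bits `U` -/
def run (d : Bool) (a : Tape) (U : Finset ℕ) (n : ℕ) : Tape :=
  ((a.1.filter (fun y => ∀ i < n, y ≠ lam a.2 d i)) ∪
    ((Finset.range n).filter (· ∈ U)).image (lam a.2 d), pos a.2 d n)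

lemma mem_run {d : Bool} {a : Tape} {U : Finset ℕ} {n : ℕ} {y : ℤ} :
    y ∈ (run d a U n).1 ↔ (y ∈ a.1 ∧ ∀ i < n, y ≠ lam a.2 d i) ∨
      ∃ i, i < n ∧ i ∈ U ∧ lam a.2 d i = y := by
  unfold run
  simp only [Finset.mem_union, Finset.mem_filter, Finset.mem_image, Finset.mem_range]
  constructor
  · rintro (h | ⟨i, ⟨h1, h2⟩, h3⟩)
    · exact Or.inl h
    · exact Or.inr ⟨i, h1, h2, h3⟩
  · rintro (h | ⟨i, h1, h2, h3⟩)
    · exact Or.inl h
    · exact Or.inr ⟨i, ⟨h1, h2⟩, h3⟩

lemma run_pos (d : Bool) (a : Tape) (U : Finset ℕ) (n : ℕ) : (run d a U n).2 = pos a.2 d n := rfl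

lemma lam_inj {x : ℤ} {d : Bool} {i j : ℕ} (h : lam x d i = lam x d j) : i = j := by
  unfold lam at h
  cases d <;> simp at h <;> exact_mod_cast h

lemma lam_mem_run {d : Bool} {a : Tape} {U : Finset ℕ} {n i : ℕ} (hi : i < n) :
    lam a.2 d i ∈ (run d a U n).1 ↔ i ∈ U := by
  rw [mem_run]
  constructor
  · rintro (⟨_, h⟩ | ⟨j, _, h2, h3⟩)
    · exact absurd rfl (h i hi)
    · rw [← lam_inj h3]; exact h2
  · intro h
    exact Or.inr ⟨i, hi, h, rfl⟩

lemma run_zero (d : Bool) (a : Tape) (U : Finset ℕ) : run d a U 0 = a := by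
  apply Prod.ext
  · ext y
    rw [mem_run]
    simp
  · unfold run pos
    cases d <;> simp

lemma run_congr {d : Bool} {a : Tape} {U U' : Finset ℕ} {n : ℕ}
    (h : ∀ i < n, (i ∈ U ↔ i ∈ U')) : run d a U n = run d a U' n := by
  apply Prod.ext
  · ext y
    rw [mem_run, mem_run]
    constructor
    · rintro (h1 | ⟨i, h1, h2, h3⟩)
      · exact Or.inl h1
      · exact Or.inr ⟨i, h1, (h i h1).1 h2, h3⟩
    · rintro (h1 | ⟨i, h1, h2, h3⟩)
      · exact Or.inl h1
      · exact Or.inr ⟨i, h1, (h i h1).2 h2, h3⟩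
  · rfl

lemma mem_run_succ {d : Bool} {a : Tape} {U : Finset ℕ} {n : ℕ} {y : ℤ} (hy : y ≠ lam a.2 d n) :
    y ∈ (run d a U n).1 ↔ y ∈ (run d a U (n + 1)).1 := by
  rw [mem_run, mem_run]
  constructor
  · rintro (⟨h1, h2⟩ | ⟨i, h1, h2, h3⟩)
    · left
      refine ⟨h1, fun i hi => ?_⟩
      rcases Nat.lt_succ_iff_lt_or_eq.1 hi with h | h
      · exact h2 i h
      · rw [h]; exact hy
    · right
      exact ⟨i, by omega, h2, h3⟩
  · rintro (⟨h1, h2⟩ | ⟨i, h1, h2, h3⟩)
    · left
      exact ⟨h1, fun i hi => h2 i (by omega)⟩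
    · right
      refine ⟨i, ?_, h2, h3⟩
      rcases Nat.lt_succ_iff_lt_or_eq.1 h1 with h | h
      · exact h
      · exfalso
        rw [h] at h3
        exact hy h3.symm

lemma run_adj (d : Bool) (a : Tape) (U : Finset ℕ) (n : ℕ) :
    tAdj (run d a U n) (run d a U (n + 1)) := by
  cases d with
  | true =>
    left
    constructor
    · simp only [run_pos, pos, if_true]; push_cast; ring
    · intro y hy
      apply mem_run_succ
      simpa [run_pos, pos, lam] using hy
  | false =>
    right
    constructor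
    · simp only [run_pos, pos, Bool.false_eq_true, if_false]; push_cast; ring
    · intro y hy
      apply mem_run_succ
      intro h
      apply hy
      rw [h]
      simp only [run_pos, pos, lam, Bool.false_eq_true, if_false]
      push_cast; ring

lemma run_injOn {d : Bool} {a : Tape} {U U' : Finset ℕ} {n : ℕ} (hU : U ⊆ range n)
    (hU' : U' ⊆ range n) (h : run d a U n = run d a U' n) : U = U' := by
  ext i
  constructor
  · intro hi
    have hin : i < n := by simpa using hU hi
    rw [← lam_mem_run (d := d) (a := a) hin, ← h, lam_mem_run hin]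
    exact hi
  · intro hi
    have hin : i < n := by simpa using hU' hi
    rw [← lam_mem_run (d := d) (a := a) hin, h, lam_mem_run hin]
    exact hi

/-- the inward direction -/
def dir (a : Tape) : Bool := decide (a.2 < 0)

lemma run_inA_iff {m : ℕ} {a : Tape} {U : Finset ℕ} {n : ℕ} (h : inA m a) :
    inA m (run (dir a) a U n) ↔ n ≤ m + a.2.natAbs := by
  obtain ⟨h1, h2⟩ := h
  rw [abs_le] at h1
  unfold inA dir
  rw [run_pos]
  by_cases hx : a.2 < 0
  · simp only [hx, decide_true]
    simp only [pos, if_true]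
    constructor
    · rintro ⟨h3, _⟩
      rw [abs_le] at h3
      omega
    · intro hn
      refine ⟨by rw [abs_le]; constructor <;> omega, ?_⟩
      intro y hy
      rw [mem_run] at hy
      rcases hy with ⟨hy, _⟩ | ⟨i, hi, _, h3⟩
      · exact h2 y hy
      · simp only [lam, if_true] at h3
        omega
  · simp only [hx, decide_false]
    simp only [pos]
    constructor
    · rintro ⟨h3, _⟩
      rw [abs_le] at h3
      simp at h3
      omega
    · intro hn
      refine ⟨by rw [abs_le]; constructor <;> simp <;> omega, ?_⟩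
      intro y hy
      rw [mem_run] at hy
      rcases hy with ⟨hy, _⟩ | ⟨i, hi, _, h3⟩
      · exact h2 y hy
      · simp [lam] at h3
        omega

lemma run_not_inA {m : ℕ} {a : Tape} {U : Finset ℕ} {n : ℕ} (h : ¬ inA m a) (h0 : 0 ∈ U) :
    ¬ inA m (run (dir a) a U n) := by
  rcases Nat.eq_zero_or_pos n with hn | hn
  · rw [hn, run_zero]; exact h
  · rintro ⟨h1, h2⟩
    apply h
    rw [run_pos, abs_le] at h1
    have hl := h2 (lam a.2 (dir a) 0) ((lam_mem_run hn).2 h0)
    unfold dir at h1 h2 hl
    by_cases hx : a.2 < 0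
    · simp only [hx, decide_true] at h1 h2 hl
      simp only [pos, lam, if_true, Nat.cast_zero, add_zero] at h1 hl
      refine ⟨by rw [abs_le]; constructor <;> omega, ?_⟩
      intro y hy
      by_cases hyl : ∀ i < n, y ≠ lam a.2 true i
      · exact h2 y (mem_run.2 (Or.inl ⟨hy, hyl⟩))
      · push Not at hyl
        obtain ⟨i, hi, rfl⟩ := hyl
        simp only [lam, if_true]
        omega
    · simp only [hx, decide_false] at h1 h2 hl
      simp [pos, lam] at h1 hl
      refine ⟨by rw [abs_le]; constructor <;> omega, ?_⟩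
      intro y hy
      by_cases hyl : ∀ i < n, y ≠ lam a.2 false i
      · exact h2 y (mem_run.2 (Or.inl ⟨hy, hyl⟩))
      · push Not at hyl
        obtain ⟨i, hi, rfl⟩ := hyl
        simp [lam]
        omega

lemma exists_block (x c : ℤ) (d : Bool) (t p : ℕ) (hp : 0 < p) :
    ∃ i, t ≤ i ∧ i < t + p ∧ (p : ℤ) ∣ c - lam x d i := by
  have hp' : (0 : ℤ) < p := by exact_mod_cast hp
  cases d with
  | true =>
    obtain ⟨j, hj⟩ := Int.eq_ofNat_of_zero_le (Int.emod_nonneg (c - x - t) hp'.ne')
    have hj2 := Int.emod_lt_of_pos (c - x - t) hp'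
    refine ⟨t + j, by omega, by omega, ?_⟩
    simp only [lam, if_true]
    refine ⟨(c - x - t) / p, ?_⟩
    have := Int.emod_add_mul_ediv (c - x - t) p
    push_cast
    linarith
  | false =>
    obtain ⟨j, hj⟩ := Int.eq_ofNat_of_zero_le (Int.emod_nonneg (x - t - 1 - c) hp'.ne')
    have hj2 := Int.emod_lt_of_pos (x - t - 1 - c) hp'
    refine ⟨t + j, by omega, by omega, ?_⟩
    simp only [lam]
    refine ⟨-((x - t - 1 - c) / p), ?_⟩
    have := Int.emod_add_mul_ediv (x - t - 1 - c) p
    push_cast
    simp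
    linarith

lemma lam_block_ne {x y : ℤ} {d : Bool} {t p i j : ℕ} (hi : t ≤ i) (hi' : i < t + p)
    (hj : t ≤ j) (hj' : j < t + p) (h : (p : ℤ) ∣ y - lam x d i) (hne : y ≠ lam x d i) :
    y ≠ lam x d j := by
  rintro rfl
  obtain ⟨q, hq⟩ := h
  have hq0 : q ≠ 0 := by
    rintro rfl
    apply hne
    linarith
  have hd : |lam x d j - lam x d i| < p := by
    rw [abs_lt]
    unfold lam
    cases d <;> simp <;> constructor <;> omega
  rw [hq, abs_mul] at hd
  have h1 : 1 ≤ |q| := Int.one_le_abs hq0
  have h2 : (0 : ℤ) ≤ |(p : ℤ)| := abs_nonneg _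
  have h3 : |(p : ℤ)| = p := by simp
  rw [h3] at hd h2
  nlinarith

lemma exists_hash (s : ℕ) (hs : 0 < s) (d : Bool) (a b : Tape) (U : Finset ℕ) (t : ℕ) :
    ∃ U' : Finset ℕ, (∀ i, (i < t ∨ t + 8 * s ≤ i) → (i ∈ U' ↔ i ∈ U)) ∧
      hash s a (run d b U' (t + 8 * s)) := by
  classical
  set p := 8 * s with hp
  have hppos : 0 < p := by omega
  let base : Finset ℤ := (run d b U t).1
  let tgt : ℤ → ZMod 2 := fun c =>
    (if (p : ℤ) ∣ c - pos b.2 d (t + p) - 4 * s then 1 else 0) - par (2 * s) a.1 c
  let need : ℕ → ZMod 2 := fun i => tgt (lam b.2 d i) -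
    par p (base.filter (fun y => ∀ j, t ≤ j → j < t + p → y ≠ lam b.2 d j)) (lam b.2 d i)
  let U' : Finset ℕ := (U.filter (fun i => i < t ∨ t + p ≤ i)) ∪
    (Finset.Ico t (t + p)).filter (fun i => need i = 1)
  have hU'1 : ∀ i, (i < t ∨ t + p ≤ i) → (i ∈ U' ↔ i ∈ U) := by
    intro i hi
    simp only [U', Finset.mem_union, Finset.mem_filter, Finset.mem_Ico]
    constructor
    · rintro (h | h)
      · exact h.1
      · omega
    · intro h
      exact Or.inl ⟨h, hi⟩
  have hU'2 : ∀ i, t ≤ i → i < t + p → (i ∈ U' ↔ need i = 1) := by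
    intro i h1 h2
    simp only [U', Finset.mem_union, Finset.mem_filter, Finset.mem_Ico]
    constructor
    · rintro (h | h)
      · omega
      · exact h.2
    · intro h
      exact Or.inr ⟨⟨h1, h2⟩, h⟩
  refine ⟨U', hU'1, ?_⟩
  intro c
  rw [← hp, run_pos]
  obtain ⟨i, hi1, hi2, hi3⟩ := exists_block b.2 c d t p hppos
  have e1 : par p (run d b U' (t + p)).1 c = par p (run d b U' (t + p)).1 (lam b.2 d i) :=
    par_periodic hi3
  have e2 : par p ((run d b U' (t + p)).1.erase (lam b.2 d i)) (lam b.2 d i) =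
      par p (base.filter (fun y => ∀ j, t ≤ j → j < t + p → y ≠ lam b.2 d j)) (lam b.2 d i) := by
    apply par_congr
    intro y hy
    simp only [Finset.mem_erase, Finset.mem_filter, base]
    by_cases hyi : y = lam b.2 d i
    · constructor
      · intro h; exact absurd hyi h.1
      · intro h; exact absurd hyi (h.2 i hi1 hi2)
    · have hblock : ∀ j, t ≤ j → j < t + p → y ≠ lam b.2 d j := fun j hj1 hj2 =>
        lam_block_ne hi1 hi2 hj1 hj2 hy hyi
      rw [mem_run, mem_run]
      constructor
      · rintro ⟨_, ⟨h1, h2⟩ | ⟨j, h1, h2, h3⟩⟩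
        · exact ⟨Or.inl ⟨h1, fun j hj => h2 j (by omega)⟩, hblock⟩
        · have hjt : j < t := by
            by_contra hcon
            exact hblock j (by omega) h1 h3.symm
          exact ⟨Or.inr ⟨j, hjt, (hU'1 j (Or.inl hjt)).1 h2, h3⟩, hblock⟩
      · rintro ⟨⟨h1, h2⟩ | ⟨j, h1, h2, h3⟩, _⟩
        · refine ⟨hyi, Or.inl ⟨h1, fun j hj => ?_⟩⟩
          by_cases hjt : j < t
          · exact h2 j hjt
          · exact hblock j (by omega) hj
        · exact ⟨hyi, Or.inr ⟨j, by omega, (hU'1 j (Or.inl h1)).2 h2, h3⟩⟩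
  have e3 : (if lam b.2 d i ∈ (run d b U' (t + p)).1 then (1 : ZMod 2) else 0) = need i := by
    have : lam b.2 d i ∈ (run d b U' (t + p)).1 ↔ need i = 1 := by
      rw [lam_mem_run hi2, hU'2 i hi1 hi2]
    simp only [this]
    generalize need i = z
    revert z
    decide
  have e4 : tgt (lam b.2 d i) = tgt c := by
    simp only [tgt]
    have f1 : (p : ℤ) ∣ lam b.2 d i - pos b.2 d (t + p) - 4 * s ↔
        (p : ℤ) ∣ c - pos b.2 d (t + p) - 4 * s := by
      have e : c - pos b.2 d (t + p) - 4 * s =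
        (c - lam b.2 d i) + (lam b.2 d i - pos b.2 d (t + p) - 4 * s) := by ring
      rw [e]
      exact (dvd_add_right hi3).symm
    have f2 : par (2 * s) a.1 (lam b.2 d i) = par (2 * s) a.1 c := by
      apply par_periodic
      have : ((2 * s : ℕ) : ℤ) ∣ (p : ℤ) := ⟨4, by rw [hp]; push_cast; ring⟩
      have h5 := (dvd_neg.2 (this.trans hi3))
      have e : lam b.2 d i - c = -(c - lam b.2 d i) := by ring
      rw [e]; exact h5
    simp only [f1, f2]
  rw [e1, par_eq_erase, e3, e2]
  have : need i + par p (base.filter (fun y => ∀ j, t ≤ j → j < t + p → y ≠ lam b.2 d j))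
      (lam b.2 d i) = tgt c := by
    rw [← e4]
    simp only [need]
    ring
  rw [this]
  simp only [tgt]
  ring

/-- few bit strings miss all ports in a window of `N` blocks -/
lemma fail_card (s : ℕ) (hs : 0 < s) (d : Bool) (a b : Tape) (t j : ℕ) (P : Finset ℕ → Prop)
    [DecidablePred P] (N : ℕ)
    (h : t + N * (8 * s) ≤ j)
    (hP : ∀ U, P U ↔ ∀ n < N, ¬ hash s a (run d b U (t + (n + 1) * (8 * s)))) :
    ((((range j).powerset).filter P).card : ℝ) ≤ (1 - 1 / 2 ^ (8 * s)) ^ N * 2 ^ j := by
  classical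
  induction N generalizing P with
  | zero =>
    simp only [pow_zero, one_mul]
    refine le_trans (Nat.cast_le.2 (Finset.card_filter_le _ _)) ?_
    simp
  | succ N ih =>
    set p := 8 * s with hp
    let P' : Finset ℕ → Prop := fun U => ∀ n < N, ¬ hash s a (run d b U (t + (n + 1) * p))
    have ih' := ih P' (by nlinarith) (fun U => Iff.rfl)
    set C := ((range j).powerset).filter P' with hC
    set C1 := ((range j).powerset).filter P with hC1
    have hsub : C1 ⊆ C := by
      intro U hU
      rw [hC1, Finset.mem_filter] at hU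
      rw [hC, Finset.mem_filter]
      refine ⟨hU.1, fun n hn => (hP U).1 hU.2 n (by omega)⟩
    have hT : t + (N + 1) * p = (t + N * p) + 8 * s := by rw [← hp]; ring
    choose f hf1 hf2 using fun U => exists_hash s hs d a b U (t + N * p)
    have himg : C.image f ⊆ C \ C1 := by
      intro V hV
      obtain ⟨U, hU, rfl⟩ := Finset.mem_image.1 hV
      rw [hC, Finset.mem_filter, Finset.mem_powerset] at hU
      rw [Finset.mem_sdiff, hC, Finset.mem_filter, Finset.mem_powerset]
      refine ⟨⟨?_, ?_⟩, ?_⟩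
      · intro i hi
        rw [Finset.mem_range]
        by_contra hcon
        have h2 : i ∈ U := (hf1 U i (Or.inr (by
          have : (N + 1) * p = N * p + p := by ring
          omega))).1 hi
        have := hU.1 h2
        rw [Finset.mem_range] at this
        omega
      · intro n hn
        have : run d b (f U) (t + (n + 1) * p) = run d b U (t + (n + 1) * p) := by
          apply run_congr
          intro i hi
          apply hf1 U i
          left
          have : (n + 1) * p ≤ N * p := Nat.mul_le_mul_right _ hn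
          omega
        rw [this]
        exact hU.2 n hn
      · rw [hC1, Finset.mem_filter, not_and]
        intro _ h2
        apply (hP _).1 h2 N (by omega)
        rw [hT]
        exact hf2 U
    have hfib : ∀ V ∈ C.image f, (C.filter (fun U => f U = V)).card ≤ 2 ^ p := by
      intro V _
      have : (Finset.Ico (t + N * p) (t + N * p + p)).powerset.card = 2 ^ p := by
        rw [Finset.card_powerset, Nat.card_Ico]
        congr 1
        omega
      rw [← this]
      apply Finset.card_le_card_of_injOn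
        (fun U => U ∩ Finset.Ico (t + N * p) (t + N * p + p))
      · intro U _
        simp only [Finset.coe_powerset, Set.mem_preimage, Set.mem_powerset_iff, Finset.coe_subset]
        exact Finset.inter_subset_right
      · intro U hU W hW hUW
        rw [Finset.mem_coe, Finset.mem_filter] at hU hW
        ext i
        by_cases hi : i ∈ Finset.Ico (t + N * p) (t + N * p + p)
        · have h3 := Finset.ext_iff.1 hUW i
          simp only [Finset.mem_inter, hi, and_true] at h3
          exact h3
        · have hi' : i < t + N * p ∨ t + N * p + 8 * s ≤ i := by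
            rw [Finset.mem_Ico] at hi
            omega
          rw [← hf1 U i hi', ← hf1 W i hi', hU.2, hW.2]
    have h1 := Finset.card_le_mul_card_image C (2 ^ p) hfib
    have h2 := Finset.card_le_card himg
    rw [Finset.card_sdiff_of_subset hsub] at h2
    have h3 := Finset.card_le_card hsub
    have h4 : C.card ≤ 2 ^ p * (C.card - C1.card) := h1.trans (Nat.mul_le_mul_left _ h2)
    have h5 : (C.card : ℝ) ≤ 2 ^ p * ((C.card : ℝ) - C1.card) := by
      have : ((C.card : ℕ) : ℝ) ≤ ((2 ^ p * (C.card - C1.card) : ℕ) : ℝ) := by exact_mod_cast h4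
      push_cast [Nat.cast_sub h3] at this
      exact this
    have h6 : (0 : ℝ) < 2 ^ p := by positivity
    have h7 : (C1.card : ℝ) ≤ (1 - 1 / 2 ^ p) * C.card := by
      have : (C.card : ℝ) / 2 ^ p ≤ (C.card : ℝ) - C1.card := by
        rw [div_le_iff₀ h6]; linarith
      have e : (1 - 1 / 2 ^ p) * (C.card : ℝ) = C.card - C.card / 2 ^ p := by ring
      rw [e]; linarith
    refine h7.trans ?_
    have h8 : (0 : ℝ) ≤ 1 - 1 / 2 ^ p := by
      have : (1 : ℝ) ≤ 2 ^ p := one_le_pow₀ (by norm_num)
      have : (1 : ℝ) / 2 ^ p ≤ 1 := by rw [div_le_one h6]; exact this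
      linarith
    calc (1 - 1 / 2 ^ p) * (C.card : ℝ) ≤ (1 - 1 / 2 ^ p) * ((1 - 1 / 2 ^ p) ^ N * 2 ^ j) :=
          mul_le_mul_of_nonneg_left ih' h8
      _ = (1 - 1 / 2 ^ p) ^ (N + 1) * 2 ^ j := by rw [pow_succ]; ring

end

end Pool.Agent.MPfc4263
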