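import Pool.Agent.MP_fc4263_co.Graph

namespace Pool.Agent.MPfc4263

open SimpleGraph

lemma per_pos (k : ℕ) : 0 < per k := by unfold per sep; omega

lemma sep_le_per (k : ℕ) : sep k ≤ per k := by unfold per; omega

lemma tim_succ (k : ℕ) : tim (k + 1) = tim k + rep k * per k := rfl

lemma rep_pos (k : ℕ) : 0 < rep k := by unfold rep; positivity

lemma tim_lt_succ (k : ℕ) : tim k + per k ≤ tim (k + 1) := by
  rw [tim_succ]
  have := rep_pos k
  nlinarith [per_pos k]

lemma tim_mono : Monotone tim := monotone_nat_of_le_succ (fun k => by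
  have := tim_lt_succ k; omega)

lemma rad_strictMono : StrictMono rad := by
  apply strictMono_nat_of_lt_succ
  intro k
  unfold rad
  have := tim_lt_succ (k + 1)
  have := per_pos (k + 1)
  omega

lemma sep_lt_rad (k : ℕ) : sep k < rad k := by
  unfold rad
  have h1 := tim_lt_succ k
  have h2 := sep_le_per k
  have h3 : 0 < sep k := by unfold sep; omega
  omega

lemma rad_pos (k : ℕ) : 0 < rad k := lt_of_le_of_lt (Nat.zero_le _) (sep_lt_rad k)

/-- The separation statement for two ports on faces of the same kind. -/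
lemma face_sep {s n : ℕ} {R : ℤ} (hs : n < s) (hR : (s : ℤ) < R) {a b a' b' : Tape}
    (ha : |a.2| = R) (ha' : |a'.2| = R)
    (hab : hash s a b) (hab' : hash s a' b') (h1 : QQ a a' n) (h2 : QQ b b' n) :
    a = a' ∧ b = b' := by
  obtain ⟨k1, l1, hw1, hk1, hx1⟩ := h1.window
  obtain ⟨k2, l2, hw2, hk2, hx2⟩ := h2.window
  -- first coordinates of lamps agree
  have e1 : a.1 = a'.1 := by
    by_contra hne
    have : ∃ y0, ¬ (y0 ∈ a.1 ↔ y0 ∈ a'.1) := by
      by_contra hcon
      push Not at hcon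
      exact hne (Finset.ext hcon)
    obtain ⟨y0, hy0⟩ := this
    have hpar : par (2 * s) a.1 y0 ≠ par (2 * s) a'.1 y0 := by
      apply par_ne (u := a.2 - k1) (z := a.2 + l1) _ _ hy0
      · intro y hy; exact (hw1 y hy).symm
      · push_cast; omega
    -- four shifted copies
    have key : ∀ i : Fin 4, ∃ j : Fin 3,
        (j = 0 → ∃ y, b.2 - k2 ≤ y ∧ y < b.2 + l2 ∧
          ((8 * s : ℕ) : ℤ) ∣ y - (y0 + 2 * s * (i.1 : ℤ))) ∧
        (j = 1 → ((8 * s : ℕ) : ℤ) ∣ (y0 + 2 * s * (i.1 : ℤ)) - b.2 - 4 * s) ∧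
        (j = 2 → ((8 * s : ℕ) : ℤ) ∣ (y0 + 2 * s * (i.1 : ℤ)) - b'.2 - 4 * s) := by
      intro i
      by_contra hcon
      push Not at hcon
      have c0 := hcon 0
      have c1 := hcon 1
      have c2 := hcon 2
      have hB : ¬ ((8 * s : ℕ) : ℤ) ∣ (y0 + 2 * s * (i.1 : ℤ)) - b.2 - 4 * s := by
        intro hd
        have := c1 (by simp) (fun _ => hd)
        simp at this
      have hC : ¬ ((8 * s : ℕ) : ℤ) ∣ (y0 + 2 * s * (i.1 : ℤ)) - b'.2 - 4 * s := by
        intro hd
        have := c2 (by simp) (by simp)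
        exact this.2 hd
      have hA : ∀ y, ((8 * s : ℕ) : ℤ) ∣ y - (y0 + 2 * s * (i.1 : ℤ)) → (y ∈ b.1 ↔ y ∈ b'.1) := by
        intro y hy
        by_contra hyy
        have hin : b.2 - k2 ≤ y ∧ y < b.2 + l2 := by
          by_contra hcon2
          apply hyy
          exact (hw2 y (by omega)).symm
        have := c0 (fun _ => ⟨y, hin.1, hin.2, hy⟩) (by simp)
        simp at this
      have q1 := hab (y0 + 2 * s * (i.1 : ℤ))
      have q2 := hab' (y0 + 2 * s * (i.1 : ℤ))
      rw [if_neg hB] at q1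
      rw [if_neg hC] at q2
      rw [par_congr hA] at q1
      have q3 : par (2 * s) a.1 (y0 + 2 * s * (i.1 : ℤ)) = par (2 * s) a.1 y0 :=
        par_periodic ⟨i.1, by push_cast; ring⟩
      have q4 : par (2 * s) a'.1 (y0 + 2 * s * (i.1 : ℤ)) = par (2 * s) a'.1 y0 :=
        par_periodic ⟨i.1, by push_cast; ring⟩
      rw [q3] at q1
      rw [q4] at q2
      apply hpar
      have := q1.trans q2.symm
      exact add_left_cancel this
    choose f hf using key
    obtain ⟨i, j, hij, hfij⟩ := Fintype.exists_ne_map_eq_of_card_lt f (by simp)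
    have hspos : (0 : ℤ) < s := by omega
    have noti : ¬ ((8 * s : ℕ) : ℤ) ∣ 2 * s * ((i.1 : ℤ) - j.1) := by
      rintro ⟨q, hq⟩
      have h8 : (2 * (s : ℤ)) * ((i.1 : ℤ) - j.1) = (2 * (s : ℤ)) * (4 * q) := by
        rw [hq]; push_cast; ring
      have h9 := mul_left_cancel₀ (by positivity) h8
      have := i.2; have := j.2
      have hne : (i.1 : ℤ) ≠ j.1 := by
        intro h; apply hij; apply Fin.ext; exact_mod_cast h
      omega
    have hcases : f i = 0 ∨ f i = 1 ∨ f i = 2 := by
      generalize f i = g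
      revert g; decide
    rcases hcases with h0 | h0 | h0
    · obtain ⟨y, hy1, hy2, hy3⟩ := (hf i).1 h0
      obtain ⟨y', hy1', hy2', hy3'⟩ := (hf j).1 (hfij ▸ h0)
      obtain ⟨q, hq⟩ := hy3
      obtain ⟨q', hq'⟩ := hy3'
      -- y = y'
      have hyy : y - y' = (2 * (s : ℤ)) * (4 * q - 4 * q' + (i.1 - j.1)) := by
        push_cast at hq hq'
        linarith
      have : (4 * q - 4 * q' + ((i.1 : ℤ) - j.1)) = 0 := by
        by_contra hne
        rcases lt_or_gt_of_ne hne with h | h
        · have : (2 * (s : ℤ)) * (4 * q - 4 * q' + (i.1 - j.1)) ≤ (2 * (s : ℤ)) * (-1) := by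
            apply mul_le_mul_of_nonneg_left _ (by positivity)
            omega
          omega
        · have : (2 * (s : ℤ)) * 1 ≤ (2 * (s : ℤ)) * (4 * q - 4 * q' + (i.1 - j.1)) := by
            apply mul_le_mul_of_nonneg_left _ (by positivity)
            omega
          omega
      apply noti
      refine ⟨q' - q, ?_⟩
      push_cast
      have h9 : (i.1 : ℤ) - j.1 = 4 * (q' - q) := by linarith
      rw [h9]; ring
    · have g1 := (hf i).2.1 h0
      have g2 := (hf j).2.1 (hfij ▸ h0)
      apply noti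
      have e : 2 * (s : ℤ) * ((i.1 : ℤ) - j.1) = (y0 + 2 * s * (i.1 : ℤ) - b.2 - 4 * s) -
          (y0 + 2 * s * (j.1 : ℤ) - b.2 - 4 * s) := by ring
      rw [e]
      exact dvd_sub g1 g2
    · have g1 := (hf i).2.2 h0
      have g2 := (hf j).2.2 (hfij ▸ h0)
      apply noti
      have e : 2 * (s : ℤ) * ((i.1 : ℤ) - j.1) = (y0 + 2 * s * (i.1 : ℤ) - b'.2 - 4 * s) -
          (y0 + 2 * s * (j.1 : ℤ) - b'.2 - 4 * s) := by ring
      rw [e]
      exact dvd_sub g1 g2
  have e2 : a.2 = a'.2 := by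
    have hRpos : 0 < R := by omega
    rcases abs_eq (le_of_lt hRpos) |>.1 ha with h | h <;>
      rcases abs_eq (le_of_lt hRpos) |>.1 ha' with h' | h'
    · omega
    · exfalso
      rw [h, h'] at hx1
      have : |-R - R| = 2 * R := by
        rw [abs_of_nonpos] <;> omega
      omega
    · exfalso
      rw [h, h'] at hx1
      have : |R - -R| = 2 * R := by
        rw [abs_of_nonneg] <;> omega
      omega
    · omega
  have e3 : b.2 = b'.2 := by
    by_contra hne
    have q1 := hab (b.2 + 4 * s)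
    have q2 := hab' (b.2 + 4 * s)
    rw [if_pos (by simp)] at q1
    rw [if_neg (by
      rintro ⟨q, hq⟩
      have hq' : b.2 - b'.2 = 8 * s * q := by
        push_cast at hq
        linarith
      have hq0 : q ≠ 0 := by
        rintro rfl
        apply hne
        linarith
      rw [abs_le] at hx2
      rcases lt_or_gt_of_ne hq0 with h | h
      · have : 8 * (s : ℤ) * q ≤ 8 * (s : ℤ) * (-1) := by
          apply mul_le_mul_of_nonneg_left _ (by positivity)
          omega
        omega
      · have : 8 * (s : ℤ) * 1 ≤ 8 * (s : ℤ) * q := by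
          apply mul_le_mul_of_nonneg_left _ (by positivity)
          omega
        omega)] at q2
    rw [← e1] at q2
    have hA : ∀ y, ((8 * s : ℕ) : ℤ) ∣ y - (b.2 + 4 * s) → (y ∈ b.1 ↔ y ∈ b'.1) := by
      intro y hy
      by_contra hyy
      have hin : b.2 - k2 ≤ y ∧ y < b.2 + l2 := by
        by_contra hcon2
        apply hyy
        exact (hw2 y (by omega)).symm
      obtain ⟨q, hq⟩ := hy
      push_cast at hq
      rcases le_or_gt 0 q with h | h
      · have : 8 * (s : ℤ) * 0 ≤ 8 * (s : ℤ) * q :=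
          mul_le_mul_of_nonneg_left h (by positivity)
        omega
      · have : 8 * (s : ℤ) * q ≤ 8 * (s : ℤ) * (-1) := by
          apply mul_le_mul_of_nonneg_left _ (by positivity)
          omega
        omega
    rw [par_congr hA] at q1
    rw [q1] at q2
    exact one_ne_zero q2
  have e4 : b.1 = b'.1 := by
    by_contra hne
    have : ∃ y0, ¬ (y0 ∈ b.1 ↔ y0 ∈ b'.1) := by
      by_contra hcon
      push Not at hcon
      exact hne (Finset.ext hcon)
    obtain ⟨y0, hy0⟩ := this
    have hpar : par (8 * s) b.1 y0 ≠ par (8 * s) b'.1 y0 := by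
      apply par_ne (u := b.2 - k2) (z := b.2 + l2) _ _ hy0
      · intro y hy; exact (hw2 y hy).symm
      · push_cast; omega
    have q1 := hab y0
    have q2 := hab' y0
    rw [← e1, ← e3] at q2
    apply hpar
    exact add_right_cancel (q1.trans q2.symm)
  exact ⟨Prod.ext e1 e2, Prod.ext e4 e3⟩

theorem port_sep {k : ℕ} {v v' : Vtx} (h : port k v) (h' : port k v') (hne : v ≠ v')
    (p : GG.Walk v' v) : 2 * k < p.length := by
  by_contra hcon
  push Not at hcon
  obtain ⟨n1, n2, hn, h1, h2⟩ := QQ_of_walk (p.mapLe GG_le)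
  have hlen : (p.mapLe GG_le).length = p.length := by simp
  rw [hlen] at hn
  have hs : 2 * k < sep k := by unfold sep; omega
  have hr : ((sep k : ℕ) : ℤ) < rad k := by exact_mod_cast sep_lt_rad k
  have h1' := h1.mono (show n1 ≤ 2 * k by omega)
  have h2' := h2.mono (show n2 ≤ 2 * k by omega)
  apply hne
  obtain ⟨_, h3⟩ := h
  obtain ⟨_, h3'⟩ := h'
  obtain ⟨_, _, _, _, hx1⟩ := h1'.window
  obtain ⟨_, _, _, _, hx2⟩ := h2'.window
  rcases h3 with ⟨f1, f2, f3⟩ | ⟨f1, f2, f3⟩ <;> rcases h3' with ⟨f1', f2', f3'⟩ | ⟨f1', f2', f3'⟩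
  · obtain ⟨e1, e2⟩ := face_sep hs hr f1 f1' f3 f3' h1' h2'
    exact Prod.ext e1 e2
  · exfalso
    have := abs_sub_abs_le_abs_sub v'.2.2 v.2.2
    omega
  · exfalso
    have := abs_sub_abs_le_abs_sub v'.1.2 v.1.2
    omega
  · obtain ⟨e1, e2⟩ := face_sep hs hr f1 f1' f3 f3' h2' h1'
    exact Prod.ext e2 e1

end Pool.Agent.MPfc4263
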